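import Pool.Agent.J4.H85.LE.Hyp

/-!
# Leafwise exponents of `Ω`-stable diffeomorphisms
-/

set_option autoImplicit false
set_option linter.unusedSectionVars false

open scoped Manifold ContDiff Topology
open Filter Set MeasureTheory

universe u

namespace Pool.Agent.J4.H85.LE

open Pool.Agent.H718R2.G Pool.Agent.W564.SC Pool.Agent.TH80.OMS Pool.Agent.TH80.CLX
open Pool.Agent.TH290.CL

/-- The Lyapunov exponent along the leaves of `F_s = ψ_s ∘ F` over `k` steps, from the point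
`ψ_t(c)`: one has `F_s^k(ψ_t(c)) = ψ_{orb h k t s}(F^k(c))`, and `lexp h k t s` is `1/k` times the
logarithm of the derivative of `orb h k t s` in `t`. -/
noncomputable def lexp (h : ℕ → ℝ → ℝ) (k : ℕ) (t s : ℝ) : ℝ :=
  (∑ i ∈ Finset.range k, Real.log (deriv (h i) (orb h i t s))) / k

theorem lexp_eq {h : ℕ → ℝ → ℝ} (hi : ∀ i t, 0 < deriv (h i) t) (k : ℕ) {y : ℕ → ℝ → ℝ}
    (hy : ∀ s i, y i s = orb h i (y 0 s) s) (s : ℝ) :
    lexp h k (y 0 s) s = Curve.expo h k y s := by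
  unfold lexp Curve.expo Curve.mult
  rw [Real.log_prod (fun i _ => (hi i _).ne')]
  congr 1
  exact Finset.sum_congr rfl fun i _ => by rw [hy s i]

theorem lexp_neg {h : ℕ → ℝ → ℝ} (hi : ∀ i t, 0 < deriv (h i) t) {k : ℕ} (hk : 1 ≤ k) (t s : ℝ) :
    lexp h k t s < 0 ↔ dT h k t s < 1 := by
  have hk0 : (0 : ℝ) < k := by exact_mod_cast hk
  have e : lexp h k t s = Real.log (dT h k t s) / k := by
    unfold lexp dT
    rw [Real.log_prod (fun i _ => (hi i _).ne')]
  rw [e, div_lt_iff₀ hk0, zero_mul]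
  exact Real.log_neg_iff (dT_pos hi k t s)

/-- Let `ψ_t(c)` be a point of period `k` of `F`. For `|s| ≤ δ` the points `ψ_{x(s)}(c)` are periodic
points of `F_s = ψ_s ∘ F` with period `k`; the `i`-th image of `ψ_{x(s)}(c)` under `F_s` is
`ψ_{y_i(s)}(F^i c)` with `y_i(s) = orb h i (x s) s`. -/
structure Continues {N : Type u} [TopologicalSpace N] (ψ : ℝ → N → N) (F : N → N) (c : N)
    (h : ℕ → ℝ → ℝ) (T : ℕ → ℝ) (δ : ℝ) (k : ℕ) (t : ℝ) (x : ℝ → ℝ) : Prop where
  /-- the continuation starts at the given point -/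
  start : x 0 = t
  diff : ∀ s, |s| ≤ δ → DifferentiableAt ℝ x s
  /-- it consists of periodic points of `F_s` -/
  per : ∀ s, |s| ≤ δ → (fun y => ψ s (F y))^[k] (ψ (x s) c) = ψ (x s) c
  /-- they are hyperbolic along the leaves -/
  hyp : ∀ s, |s| ≤ δ → lexp h k (x s) s ≠ 0
  /-- and all of them are attracting, or all of them are repelling, along the leaves -/
  type : ∀ s, |s| ≤ δ → (lexp h k (x s) s < 0 ↔ lexp h k t 0 < 0)
  /-- the positions `y_i` change by less than one turn of the leaf -/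
  turn : ∀ s s' i, |s| ≤ δ → |s'| ≤ δ → |orb h i (x s') s' - orb h i (x s) s| < T i
  int : IntervalIntegrable (fun s => 1 / |lexp h k (x s) s|) volume (-δ) δ
  /-- the reciprocals of the exponents have an integral of at most the mean length of the leaves -/
  mean : ∫ s in (-δ)..δ, 1 / |lexp h k (x s) s| ≤ (∑ i ∈ Finset.range k, T i) / k
  /-- attracting points move forward at unit speed at least -/
  speed : lexp h k t 0 < 0 → ∀ s s' i, |s| ≤ δ → |s'| ≤ δ → s ≤ s' →
    s' - s ≤ orb h i (x s') s' - orb h i (x s) s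
  /-- the basin of an attracting point has at least the length `δ` on both sides -/
  basin : lexp h k t 0 < 0 → ∀ t', |t' - t| ≤ δ →
    Tendsto (fun m => F^[m * k] (ψ t' c)) atTop (𝓝 (ψ t c))

variable {n : ℕ} {N : Type u} [TopologicalSpace N] [T2Space N] [CompactSpace N]
  [ChartedSpace (V n) N] [IsManifold (𝓡 n) ∞ N]

theorem leaves_nondeg {ψ : ℝ → N → N} (hψ : IsFlow n N ψ) {F : N → N} {δ : ℝ}
    (hh : ∀ s, |s| < δ → ∀ p, p ∈ Per (fun y => ψ s (F y)) →
        Pool.Agent.Y504.CO.IsHyperbolicPer n (fun y => ψ s (F y)) p)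
    {c : N} {h : ℕ → ℝ → ℝ} {T : ℕ → ℝ} (L : Leaves ψ F c h T) {k : ℕ} (hk : 1 ≤ k) {w₀ : ℝ}
    (hw : ψ w₀ (F^[k] c) = c) :
    Fam.Nondeg (Chain.disp h (Leaves.W h k w₀) k) (fun t s => dT h k t s - 1) δ := by
  intro t s hs h0 h1
  have A := flow_act hψ
  have e0 : orb h k t s - w₀ = t := by
    have : orb h k t s - t - w₀ = 0 := h0
    linarith
  have hp : (fun y => ψ s (F y))^[k] (ψ t c) = ψ t c := by
    rw [L.ret_spec A hw, e0]
  have hu : ψ (T 0 / 2) (ψ t c) ≠ ψ t c := by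
    intro h2
    rw [← A.add, A.eq_iff, add_sub_cancel_right] at h2
    have h4 := L.minimal 0 (T 0 / 2) (by linarith [L.pos 0]) h2
    linarith [L.pos 0]
  have hρ : HasDerivAt (fun u => orb h k (u + t) s - w₀ - t) (dT h k t s) 0 := by
    have h2 := orb_der L.smooth k t s
    have h3 : HasDerivAt (fun u : ℝ => (u + t, s)) ((1 : ℝ), (0 : ℝ)) 0 :=
      ((hasDerivAt_id (0 : ℝ)).add_const t).prodMk (hasDerivAt_const (0 : ℝ) s)
    have h4 : HasFDerivAt (fun q : ℝ × ℝ => orb h k q.1 q.2)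
        (dT h k t s • ContinuousLinearMap.fst ℝ ℝ ℝ + dS h k t s • ContinuousLinearMap.snd ℝ ℝ ℝ)
        ((0 : ℝ) + t, s) := by
      rw [zero_add]
      exact h2
    have h5 := HasFDerivAt.comp_hasDerivAt (f := fun u : ℝ => (u + t, s)) (0 : ℝ) h4 h3
    have h6 := (h5.sub_const w₀).sub_const t
    refine h6.congr_deriv ?_
    simp
  have h7 := leaf_eig hψ hu (hh s hs _ ⟨k, hk, hp⟩) hk hp (ρ := fun u => orb h k (u + t) s - w₀ - t)
    (by show orb h k (0 + t) s - w₀ - t = 0; rw [zero_add, e0, sub_self]) hρ (by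
      intro u
      rw [← A.add, L.ret_spec A hw, ← A.add, sub_add_cancel])
  apply h7
  have h8 : dT h k t s = 1 := by
    have : dT h k t s - 1 = 0 := h1
    linarith
  rw [h8, abs_one]

theorem continues {ψ : ℝ → N → N} (hψ : IsFlow n N ψ) {F : N → N} (hinj : Function.Injective F)
    {δ : ℝ} (hδ : 0 < δ)
    (hh : ∀ s, |s| < 2 * δ → ∀ p, p ∈ Per (fun y => ψ s (F y)) →
        Pool.Agent.Y504.CO.IsHyperbolicPer n (fun y => ψ s (F y)) p)
    {c : N} {h : ℕ → ℝ → ℝ} {T : ℕ → ℝ} (L : Leaves ψ F c h T) {k : ℕ} (hk : 1 ≤ k) {t : ℝ}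
    (ht : F^[k] (ψ t c) = ψ t c) : ∃ x, Continues ψ F c h T δ k t x := by
  have A := flow_act hψ
  have hw := L.close_of_per A ht
  have hn := leaves_nondeg hψ hh L hk hw
  have hd0 : Chain.disp h (Leaves.W h k (orb h k t 0 - t)) k t 0 = 0 := Leaves.disp_of_per
  have h00 : |(0 : ℝ)| < 2 * δ := by rw [abs_zero]; linarith
  obtain ⟨y, v, C, hy0, hy⟩ := (L.chain A hinj hk hw).curve hn h00 hd0
  have hex : ∀ s, lexp h k (y 0 s) s = Curve.expo h k y s := lexp_eq L.incr k hy
  have hk0 : (0 : ℝ) < k := by exact_mod_cast hk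
  have hlt : ∀ s, |s| ≤ δ → |s| < 2 * δ := fun s hs => by linarith
  have hneg : ∀ s, |s| ≤ δ → (lexp h k (y 0 s) s < 0 ↔ Curve.mult h k y s < 1) := by
    intro s hs
    rw [lexp_neg L.incr hk, mult_eq hy]
  refine ⟨y 0, ?_⟩
  refine
    { start := hy0
      diff := fun s hs => (C.der 0 s (hlt s hs)).differentiableAt
      per := fun s hs => ?_
      hyp := fun s hs => ?_
      type := fun s hs => ?_
      turn := fun s s' i hs hs' => ?_
      int := ?_
      mean := ?_
      speed := fun h1 s s' i hs hs' hss => ?_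
      basin := fun h1 t' ht' => ?_ }
  · rw [L.ret_spec A hw]
    have h1 := C.close 0 s (hlt s hs)
    rw [zero_add, hy s k] at h1
    have h2 : orb h k (y 0 s) s - (orb h k t 0 - t) = y 0 s := by
      have e : Leaves.W h k (orb h k t 0 - t) 0 = orb h k t 0 - t := rfl
      rw [e] at h1
      linarith
    rw [h2]
  · rw [hex]
    unfold Curve.expo
    exact div_ne_zero (Real.log_ne_zero_of_pos_of_ne_one (C.mult_pos s) (C.nondeg s (hlt s hs)))
      hk0.ne'
  · have e := hneg 0 (by rw [abs_zero]; exact hδ.le)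
    rw [hy0] at e
    rw [hneg s hs, e]
    constructor
    · intro h1
      exact C.mult_lt (hlt s hs) h1 h00
    · intro h1
      exact C.mult_lt h00 h1 (hlt s hs)
  · rw [← hy s' i, ← hy s i]
    exact C.variation (hlt s hs) (hlt s' hs') i
  · have := C.expo_int hδ (by linarith)
    simp only [hex]
    exact this
  · have := C.integral_le hδ (by linarith)
    simp only [hex]
    exact this
  · have e := hneg 0 (by rw [abs_zero]; exact hδ.le)
    rw [hy0] at e
    rw [← hy s' i, ← hy s i]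
    rcases hss.eq_or_lt with h2 | h2
    · rw [h2]
      simp
    · exact C.grow_y h00 (e.1 h1) (hlt s hs) (hlt s' hs') h2 i
  · have e := hneg 0 (by rw [abs_zero]; exact hδ.le)
    rw [hy0] at e
    have hb := C.basin hy h00 (e.1 h1) (t := t') (by rw [hy0]; linarith)
    have hcont : Continuous fun u : ℝ => ψ u c :=
      hψ.smooth.continuous.comp (continuous_id.prodMk continuous_const)
    have h2 := (hcont.tendsto _).comp hb
    rw [hy0] at h2
    refine h2.congr fun m => ?_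
    show ψ ((ret h (Leaves.W h k (orb h k t 0 - t)) k)^[m] t') c = _
    rw [L.iter_ret A hw]

theorem exists_attracting {ψ : ℝ → N → N} (hψ : IsFlow n N ψ) {F : N → N}
    (hinj : Function.Injective F) {δ : ℝ} (hδ : 0 < δ)
    (hh : ∀ s, |s| < δ → ∀ p, p ∈ Per (fun y => ψ s (F y)) →
        Pool.Agent.Y504.CO.IsHyperbolicPer n (fun y => ψ s (F y)) p)
    {c : N} {h : ℕ → ℝ → ℝ} {T : ℕ → ℝ} (L : Leaves ψ F c h T) {m : ℕ} (hm : 1 ≤ m) {b : ℝ}
    (hb : F^[m] c = ψ b c) :
    ∃ k t, 1 ≤ k ∧ F^[k] (ψ t c) = ψ t c ∧ lexp h k t 0 < 0 := by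
  have A := flow_act hψ
  obtain ⟨k, w₀, t, hk, hw, ht⟩ := L.close_return A hm hb hδ
  have hn := leaves_nondeg hψ hh L hk hw
  obtain ⟨t₀, h1, h2⟩ := (L.chain A hinj hk hw).exists_attr hn ht
  refine ⟨k, t₀, hk, ?_, ?_⟩
  · have h3 := L.ret_spec A hw 0 t₀
    have e2 : (fun y => ψ 0 (F y)) = F := by
      funext y
      exact A.zero _
    rw [e2] at h3
    rw [h3]
    have e0 : orb h k t₀ 0 - w₀ = t₀ := by
      have : orb h k t₀ 0 - t₀ - w₀ = 0 := h1
      linarith
    rw [e0]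
  · rw [lexp_neg L.incr hk]
    exact h2

/-- a common period -/
theorem common {G : N → N} {p q : N} (hp : p ∈ Per G) (hq : q ∈ Per G) :
    ∃ k, 1 ≤ k ∧ G^[k] p = p ∧ G^[k] q = q := by
  obtain ⟨a, ha, hpa⟩ := hp
  obtain ⟨b, hb, hqb⟩ := hq
  refine ⟨a * b, Nat.one_le_iff_ne_zero.2 (Nat.mul_ne_zero (by omega) (by omega)), ?_, ?_⟩
  · rw [Function.iterate_mul]
    exact Function.iterate_fixed hpa b
  · rw [mul_comm, Function.iterate_mul]
    exact Function.iterate_fixed hqb a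

theorem long {ψ : ℝ → N → N} (hψ : IsFlow n N ψ) {F : N → N} (hinj : Function.Injective F)
    {δ : ℝ} (hδ : 0 < δ)
    (hh : ∀ s, |s| < δ → ∀ p, p ∈ Per (fun y => ψ s (F y)) →
        Pool.Agent.Y504.CO.IsHyperbolicPer n (fun y => ψ s (F y)) p)
    {c : N} {h : ℕ → ℝ → ℝ} {T : ℕ → ℝ} (L : Leaves ψ F c h T) {t : ℝ}
    (ht : ψ t c ∈ Per F) (i : ℕ) : 2 * δ ≤ T i := by
  have A := flow_act hψ
  obtain ⟨k, hk, hp⟩ := ht
  have hw := L.close_of_per A hp
  have hn := leaves_nondeg hψ hh L hk hw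
  exact (L.chain A hinj hk hw).two_le hn hδ Leaves.disp_of_per i

theorem separated {ψ : ℝ → N → N} (hψ : IsFlow n N ψ) {F : N → N} (hinj : Function.Injective F)
    {δ : ℝ} (hδ : 0 < δ)
    (hh : ∀ s, |s| < δ → ∀ p, p ∈ Per (fun y => ψ s (F y)) →
        Pool.Agent.Y504.CO.IsHyperbolicPer n (fun y => ψ s (F y)) p)
    {c : N} {h : ℕ → ℝ → ℝ} {T : ℕ → ℝ} (L : Leaves ψ F c h T) {t t' : ℝ}
    (ht : ψ t c ∈ Per F) (ht' : ψ t' c ∈ Per F) (htt : t < t') : δ ≤ t' - t := by
  have A := flow_act hψ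
  have hlong := long hψ hinj hδ hh L ht 0
  by_contra hcon
  push Not at hcon
  obtain ⟨k, hk, hp, hp'⟩ := common ht ht'
  have hw := L.close_of_per A hp
  have hn := leaves_nondeg hψ hh L hk hw
  have Ch := L.chain A hinj hk hw
  have hd0 : Chain.disp h (Leaves.W h k (orb h k t 0 - t)) k t 0 = 0 := Leaves.disp_of_per
  -- the displacement at `t'`
  have h1 := L.iter0 A t' k
  rw [hp'] at h1
  have h2 : ψ (orb h k t' 0) (F^[k] c) = ψ (orb h k t' 0 - (orb h k t 0 - t)) c := by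
    have h3 : ψ (orb h k t' 0 - (orb h k t 0 - t)) (ψ (orb h k t 0 - t) (F^[k] c)) =
        ψ (orb h k t' 0) (F^[k] c) := by
      rw [← A.add, sub_add_cancel]
    rw [hw] at h3
    exact h3.symm
  rw [h2] at h1
  have h3 := (A.eq_iff).1 h1.symm
  obtain ⟨m, hm⟩ := int_mul A (L.pos 0) (L.closed 0) (L.minimal 0) h3
  -- it is less than one turn
  have hmono := orb_mono L.incr k 0
  have g1 : orb h k t 0 < orb h k t' 0 := hmono htt
  have g2 : orb h k t' 0 < orb h k (t + T 0) 0 := hmono (by linarith)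
  have g3 := Ch.orb_per k t 0
  have g4 := Ch.perk 0
  rw [zero_add] at g4
  rw [g4] at g3
  have hT := L.pos 0
  have hm0 : m = 0 := by
    by_contra hne
    rcases lt_or_gt_of_ne hne with h5 | h5
    · have : (m : ℝ) ≤ -1 := by exact_mod_cast (by omega : m ≤ -1)
      nlinarith
    · have : (1 : ℝ) ≤ m := by exact_mod_cast (by omega : 1 ≤ m)
      nlinarith
  have hd1 : Chain.disp h (Leaves.W h k (orb h k t 0 - t)) k t' 0 = 0 := by
    unfold Chain.disp
    show orb h k t' 0 - t' - (orb h k t 0 - t) = 0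
    rw [hm0, Int.cast_zero, zero_mul] at hm
    linarith
  have := Ch.sep hn hδ hd0 hd1 htt
  linarith

/-- **Few periodic points on a leaf.** -/
theorem few {ψ : ℝ → N → N} (hψ : IsFlow n N ψ) {F : N → N} (hinj : Function.Injective F)
    {δ : ℝ} (hδ : 0 < δ)
    (hh : ∀ s, |s| < δ → ∀ p, p ∈ Per (fun y => ψ s (F y)) →
        Pool.Agent.Y504.CO.IsHyperbolicPer n (fun y => ψ s (F y)) p)
    {c : N} {h : ℕ → ℝ → ℝ} {T : ℕ → ℝ} (L : Leaves ψ F c h T) {m : ℕ} {b : ℝ}
    (hb : F^[m] c = ψ b c) {t : ℝ} (ht : ψ t c ∈ Per F) :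
    ∃ q : ℕ, 1 ≤ q ∧ (q : ℝ) ≤ T 0 / δ + 1 ∧ F^[m * q] (ψ t c) = ψ t c := by
  have A := flow_act hψ
  have hT := L.pos 0
  -- the points `F^(m j) (ψ t c)`
  have h1 : ∀ j, ∃ γ ∈ Icc 0 (T 0), F^[m * j] (ψ t c) = ψ γ c := by
    intro j
    obtain ⟨β, hβ⟩ := L.return_mul A hb j
    rw [L.iter0 A, hβ, ← A.add]
    exact L.reduce A _
  choose γ hγ hγ2 using h1
  set Q := ⌊T 0 / δ⌋₊ + 1 with hQ
  -- two of the first `Q + 1` points are closer than `δ`
  have hmaps : ∀ j ∈ Finset.range (Q + 1), ⌊γ j / δ⌋₊ ∈ Finset.range Q := by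
    intro j _
    rw [Finset.mem_range, hQ, Nat.lt_succ_iff]
    exact Nat.floor_le_floor (div_le_div_of_nonneg_right (hγ j).2 hδ.le)
  obtain ⟨i, hi, j, hj, hij, hf⟩ := Finset.exists_ne_map_eq_of_card_lt_of_maps_to
    (by rw [Finset.card_range, Finset.card_range]; omega) hmaps
  have hclose : |γ i - γ j| < δ := by
    have a1 := Nat.floor_le (div_nonneg (hγ i).1 hδ.le)
    have a2 := Nat.lt_floor_add_one (γ i / δ)
    have b1 := Nat.floor_le (div_nonneg (hγ j).1 hδ.le)
    have b2 := Nat.lt_floor_add_one (γ j / δ)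
    rw [hf] at a1 a2
    rw [le_div_iff₀ hδ] at a1 b1
    rw [div_lt_iff₀ hδ] at a2 b2
    rw [abs_lt]
    constructor <;> nlinarith
  have hper : ∀ j, ψ (γ j) c ∈ Per F := by
    intro j
    obtain ⟨k, hk, hp⟩ := ht
    refine ⟨k, hk, ?_⟩
    rw [← hγ2, ← Function.iterate_add_apply, add_comm, Function.iterate_add_apply, hp]
  have heq : γ i = γ j := by
    rcases lt_trichotomy (γ i) (γ j) with h2 | h2 | h2
    · have := separated hψ hinj hδ hh L (hper i) (hper j) h2
      rw [abs_sub_comm, abs_of_pos (by linarith)] at hclose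
      linarith
    · exact h2
    · have := separated hψ hinj hδ hh L (hper j) (hper i) h2
      rw [abs_of_pos (by linarith)] at hclose
      linarith
  have key : ∀ i j, i < j → j < Q + 1 → γ i = γ j →
      ∃ q : ℕ, 1 ≤ q ∧ (q : ℝ) ≤ T 0 / δ + 1 ∧ F^[m * q] (ψ t c) = ψ t c := by
    intro i j hlt hjQ h2
    refine ⟨j - i, by omega, ?_, ?_⟩
    · have h3 : j - i ≤ Q := by omega
      have h4 : ((j - i : ℕ) : ℝ) ≤ Q := by exact_mod_cast h3
      refine h4.trans ?_
      rw [hQ]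
      push_cast
      have := Nat.floor_le (div_nonneg hT.le hδ.le)
      linarith
    · have h3 : F^[m * i] (F^[m * (j - i)] (ψ t c)) = F^[m * i] (ψ t c) := by
        rw [← Function.iterate_add_apply, ← mul_add, show i + (j - i) = j by omega, hγ2, hγ2, h2]
      exact (hinj.iterate _) h3
  rcases lt_or_gt_of_ne hij with h2 | h2
  · exact key i j h2 (Finset.mem_range.1 hj) heq
  · exact key j i h2 (Finset.mem_range.1 hi) heq.symm

/-- The periodic points of `F` on the closed orbits of `ψ` are uniformly hyperbolic in the following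
sense, with one `δ` for all closed orbits and all periods. -/
structure UniformLeaves {N : Type u} [TopologicalSpace N] (ψ : ℝ → N → N) (F : N → N) (δ : ℝ) :
    Prop where
  /-- all periodic points on closed orbits have continuations as above -/
  continues : ∀ c h T, Leaves ψ F c h T → ∀ k t, 1 ≤ k → F^[k] (ψ t c) = ψ t c →
    ∃ x, Continues ψ F c h T δ k t x
  /-- on each cycle of closed orbits there is an attracting periodic point -/
  attracting : ∀ c h T, Leaves ψ F c h T → ∀ m b, 1 ≤ m → F^[m] c = ψ b c →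
    ∃ k t, 1 ≤ k ∧ F^[k] (ψ t c) = ψ t c ∧ lexp h k t 0 < 0

theorem uniformLeaves {ψ : ℝ → N → N} (hψ : IsFlow n N ψ) {F : N → N}
    (hinj : Function.Injective F) {δ : ℝ} (hδ : 0 < δ)
    (hh : ∀ s, |s| < 2 * δ → ∀ p, p ∈ Per (fun y => ψ s (F y)) →
        Pool.Agent.Y504.CO.IsHyperbolicPer n (fun y => ψ s (F y)) p) : UniformLeaves ψ F δ := by
  have hh' : ∀ s, |s| < δ → ∀ p, p ∈ Per (fun y => ψ s (F y)) →
      Pool.Agent.Y504.CO.IsHyperbolicPer n (fun y => ψ s (F y)) p :=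
    fun s hs => hh s (by linarith)
  exact
    { continues := fun c h T L k t hk ht => Pool.Agent.J4.H85.LE.continues hψ hinj hδ hh L hk ht
      attracting := fun c h T L m b hm hb => exists_attracting hψ hinj hδ hh' L hm hb }

/-- **Uniformity along the leaves for `Ω`-stable diffeomorphisms.** -/
theorem stable_uniform {r : ℕ∞} (hr : 1 ≤ r) {F : DiffM n N r} (hF : OmegaStable n N r F)
    {ψ : ℝ → N → N} (hψ : IsFlow n N ψ) : ∃ δ : ℝ, 0 < δ ∧ UniformLeaves ψ F δ := by
  obtain ⟨δ, hδ, hh⟩ := family_hyp hr hF hψ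
  exact ⟨δ / 2, by linarith, uniformLeaves hψ F.injective (by linarith)
    fun s hs => hh s (by linarith)⟩

end Pool.Agent.J4.H85.LE
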