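import Pool.Agent.J4.H85.LE.Bounds

/-!
# Basins of attracting closed orbits, and existence
-/

set_option autoImplicit false

open Filter Set Topology

namespace Pool.Agent.J4.H85.LE

theorem iter_right {g : ℝ → ℝ} (hg : Monotone g) (hc : Continuous g) {t₀ t₁ : ℝ} (h0 : g t₀ = t₀)
    (hlt : ∀ t, t₀ < t → t < t₁ → g t < t) {t : ℝ} (ht : t₀ ≤ t) (ht1 : t < t₁) :
    Tendsto (fun m => g^[m] t) atTop (𝓝 t₀) := by
  have hmem : ∀ m, t₀ ≤ g^[m] t ∧ g^[m] t ≤ t := by
    intro m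
    induction m with
    | zero => exact ⟨ht, le_rfl⟩
    | succ m ih =>
      rw [Function.iterate_succ_apply']
      refine ⟨by rw [← h0]; exact hg ih.1, ?_⟩
      rcases ih.1.eq_or_lt with h1 | h1
      · rw [← h1, h0]
        exact ht
      · exact ((hlt _ h1 (lt_of_le_of_lt ih.2 ht1)).le).trans ih.2
  have hanti : Antitone fun m => g^[m] t := by
    refine antitone_nat_of_succ_le fun m => ?_
    rw [Function.iterate_succ_apply']
    rcases (hmem m).1.eq_or_lt with h1 | h1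
    · rw [← h1, h0]
    · exact (hlt _ h1 (lt_of_le_of_lt (hmem m).2 ht1)).le
  have hbdd : BddBelow (range fun m => g^[m] t) := ⟨t₀, by rintro _ ⟨m, rfl⟩; exact (hmem m).1⟩
  have hlim := tendsto_atTop_ciInf hanti hbdd
  set L := ⨅ m, g^[m] t with hL
  have hL0 : t₀ ≤ L := le_ciInf fun m => (hmem m).1
  have hLt : L ≤ t := ciInf_le hbdd 0
  have hgL : g L = L := by
    have h1 : Tendsto (fun m => g^[m + 1] t) atTop (𝓝 L) := hlim.comp (tendsto_add_atTop_nat 1)
    have h2 : Tendsto (fun m => g^[m + 1] t) atTop (𝓝 (g L)) := by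
      have h3 := (hc.tendsto L).comp hlim
      refine h3.congr fun m => ?_
      rw [Function.iterate_succ_apply']
      rfl
    exact tendsto_nhds_unique h2 h1
  have : L = t₀ := by
    rcases hL0.eq_or_lt with h1 | h1
    · exact h1.symm
    · exact absurd hgL (hlt L h1 (lt_of_le_of_lt hLt ht1)).ne
  rw [this] at hlim
  exact hlim

theorem iter_left {g : ℝ → ℝ} (hg : Monotone g) (hc : Continuous g) {t₀ t₁ : ℝ} (h0 : g t₀ = t₀)
    (hlt : ∀ t, t < t₀ → t₁ < t → t < g t) {t : ℝ} (ht : t ≤ t₀) (ht1 : t₁ < t) :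
    Tendsto (fun m => g^[m] t) atTop (𝓝 t₀) := by
  have hconj : ∀ m x, (fun x => -g (-x))^[m] x = -(g^[m] (-x)) := by
    intro m
    induction m with
    | zero => intro x; simp
    | succ m ih =>
      intro x
      rw [Function.iterate_succ_apply, Function.iterate_succ_apply, ih]
      simp
  have h1 := iter_right (g := fun x => -g (-x)) (t₀ := -t₀) (t₁ := -t₁)
    (fun a b hab => neg_le_neg (hg (neg_le_neg hab))) (hc.comp continuous_neg).neg (by simp [h0])
    (fun x hx hx1 => by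
      have := hlt (-x) (by linarith) (by linarith)
      linarith) (t := -t) (by linarith) (by linarith)
  have h2 := h1.neg
  rw [neg_neg] at h2
  refine h2.congr fun m => ?_
  rw [hconj, neg_neg, neg_neg]

variable {h : ℕ → ℝ → ℝ} {T w : ℕ → ℝ} {k : ℕ} {δ : ℝ} {y v : ℕ → ℝ → ℝ}

/-- the first return in the coordinate of the first circle -/
def ret (h : ℕ → ℝ → ℝ) (w : ℕ → ℝ) (k : ℕ) (t : ℝ) : ℝ := orb h k t 0 - w 0

namespace Curve

theorem grow_y (C : Curve h T w k δ y v) (h0 : |(0 : ℝ)| < δ) (hm : mult h k y 0 < 1) {s s' : ℝ}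
    (hs : |s| < δ) (hs' : |s'| < δ) (hlt : s < s') (i : ℕ) : s' - s ≤ y i s' - y i s := by
  have hsub : Icc s s' ⊆ {s | |s| < δ} := fun x hx => abs_lt_of_mem hs hs' hx.1 hx.2
  obtain ⟨x, hx, he⟩ := exists_hasDerivAt_eq_slope (y i) (v i) hlt ((C.contOn i).mono hsub)
    fun x hx => C.der i x (hsub ⟨hx.1.le, hx.2.le⟩)
  have hx' := hsub ⟨hx.1.le, hx.2.le⟩
  have h1 := C.speed hx' (C.mult_lt h0 hm hx') i
  rw [he, le_div_iff₀ (by linarith)] at h1
  linarith

theorem ret_eq (C : Curve h T w k δ y v) (hy : ∀ s i, y i s = orb h i (y 0 s) s) (h0 : |(0 : ℝ)| < δ) :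
    ret h w k (y 0 0) = y 0 0 := by
  have h1 := C.close 0 0 h0
  rw [zero_add, hy 0 k] at h1
  unfold ret
  linarith

theorem ret_lt (C : Curve h T w k δ y v) (hy : ∀ s i, y i s = orb h i (y 0 s) s)
    (h0 : |(0 : ℝ)| < δ) (hm : mult h k y 0 < 1) {t : ℝ} (ht : y 0 0 < t) (ht1 : t < y 0 0 + δ) :
    ret h w k t < t := by
  have hδ : 0 < δ := by rwa [abs_zero] at h0
  obtain ⟨s₁, h1, h2⟩ : ∃ s₁, t - y 0 0 < s₁ ∧ s₁ < δ := exists_between (by linarith)
  have hs1 : |s₁| < δ := by rw [abs_of_pos (by linarith)]; exact h2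
  have h3 := C.grow_y h0 hm h0 hs1 (by linarith) 0
  have hsub : Icc 0 s₁ ⊆ {s | |s| < δ} := fun x hx => abs_lt_of_mem h0 hs1 hx.1 hx.2
  obtain ⟨s, hs, he⟩ := intermediate_value_Icc (by linarith : (0 : ℝ) ≤ s₁)
    ((C.contOn 0).mono hsub) (show t ∈ Icc (y 0 0) (y 0 s₁) from ⟨ht.le, by linarith⟩)
  have hs0 : 0 < s := by
    refine lt_of_le_of_ne hs.1 ?_
    rintro rfl
    linarith
  have hcl := C.close 0 s (hsub hs)
  rw [zero_add, hy s k, he] at hcl
  have := orb_grow C.chain.incr C.chain.one t 0 s hs0.le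
  unfold ret
  linarith

theorem ret_gt (C : Curve h T w k δ y v) (hy : ∀ s i, y i s = orb h i (y 0 s) s)
    (h0 : |(0 : ℝ)| < δ) (hm : mult h k y 0 < 1) {t : ℝ} (ht : t < y 0 0) (ht1 : y 0 0 - δ < t) :
    t < ret h w k t := by
  have hδ : 0 < δ := by rwa [abs_zero] at h0
  obtain ⟨s₁, h1, h2⟩ : ∃ s₁, y 0 0 - t < s₁ ∧ s₁ < δ := exists_between (by linarith)
  have hs1 : |-s₁| < δ := by rw [abs_neg, abs_of_pos (by linarith)]; exact h2
  have h3 := C.grow_y h0 hm hs1 h0 (by linarith) 0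
  have hsub : Icc (-s₁) 0 ⊆ {s | |s| < δ} := fun x hx => abs_lt_of_mem hs1 h0 hx.1 hx.2
  obtain ⟨s, hs, he⟩ := intermediate_value_Icc (by linarith : -s₁ ≤ (0 : ℝ))
    ((C.contOn 0).mono hsub) (show t ∈ Icc (y 0 (-s₁)) (y 0 0) from ⟨by linarith, ht.le⟩)
  have hs0 : s < 0 := by
    refine lt_of_le_of_ne hs.2 ?_
    rintro rfl
    linarith
  have hcl := C.close 0 s (hsub hs)
  rw [zero_add, hy s k, he] at hcl
  have := orb_grow C.chain.incr C.chain.one t s 0 hs0.le
  unfold ret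
  linarith

/-- **The basin of an attracting closed orbit contains the interval of radius `δ`.** -/
theorem basin (C : Curve h T w k δ y v) (hy : ∀ s i, y i s = orb h i (y 0 s) s)
    (h0 : |(0 : ℝ)| < δ) (hm : mult h k y 0 < 1) {t : ℝ} (ht : |t - y 0 0| < δ) :
    Tendsto (fun m => (ret h w k)^[m] t) atTop (𝓝 (y 0 0)) := by
  have hmono : Monotone (ret h w k) := fun a b hab => by
    have h1 : orb h k a 0 ≤ orb h k b 0 := (orb_mono C.chain.incr k 0).monotone hab
    unfold ret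
    linarith
  have hcont : Continuous (ret h w k) := by
    unfold ret
    exact ((orb_cont C.chain.smooth k).comp (continuous_id.prodMk continuous_const)).sub
      continuous_const
  rw [abs_lt] at ht
  rcases le_total (y 0 0) t with h1 | h1
  · exact iter_right hmono hcont (C.ret_eq hy h0)
      (fun x hx hx1 => C.ret_lt hy h0 hm hx hx1) h1 (by linarith [ht.2])
  · exact iter_left hmono hcont (C.ret_eq hy h0)
      (fun x hx hx1 => C.ret_gt hy h0 hm hx hx1) h1 (by linarith [ht.1])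

end Curve

/-- between two repelling zeros there is a zero with nonpositive derivative -/
theorem exists_zero_between {f f' : ℝ → ℝ} (hfd : ∀ t, HasDerivAt f (f' t) t) {a b : ℝ}
    (hab : a < b) (ha : f a = 0) (hb : f b = 0) (ha' : 0 < f' a) (hb' : 0 < f' b) :
    ∃ z ∈ Ioo a b, f z = 0 ∧ f' z ≤ 0 := by
  have hfc : Continuous f := continuous_iff_continuousAt.2 fun t => (hfd t).continuousAt
  have hpos : ∀ b, f b = 0 → 0 < f' b → ∀ᶠ x in 𝓝[>] b, 0 < f x := by
    intro b hb h5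
    have h6 := (hfd b).hasDerivWithinAt (s := Ioi b)
    rw [hasDerivWithinAt_iff_tendsto_slope' (by simp)] at h6
    have h7 := h6.eventually (lt_mem_nhds h5)
    filter_upwards [h7, self_mem_nhdsWithin] with x hx hx1
    rw [slope_def_field, hb, sub_zero] at hx
    have hx2 : 0 < x - b := by linarith [show b < x from hx1]
    exact (div_pos_iff_of_pos_right hx2).1 hx
  have hneg : ∀ b, f b = 0 → 0 < f' b → ∀ᶠ x in 𝓝[<] b, f x < 0 := by
    intro b hb h5
    have h6 := (hfd b).hasDerivWithinAt (s := Iio b)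
    rw [hasDerivWithinAt_iff_tendsto_slope' (by simp)] at h6
    have h7 := h6.eventually (lt_mem_nhds h5)
    filter_upwards [h7, self_mem_nhdsWithin] with x hx hx1
    rw [slope_def_field, hb, sub_zero] at hx
    have hx2 : x - b < 0 := by linarith [show x < b from hx1]
    by_contra hc
    push Not at hc
    have := div_nonpos_of_nonneg_of_nonpos hc hx2.le
    linarith
  obtain ⟨x, hx, hxa⟩ : ∃ x, 0 < f x ∧ x ∈ Ioo a b :=
    ((hpos a ha ha').and (Ioo_mem_nhdsGT hab)).exists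
  -- the first zero after x
  set S := {t | t ∈ Icc x b ∧ f t = 0}
  have hSc : IsCompact S := by
    have : S = Icc x b ∩ f ⁻¹' {0} := rfl
    rw [this]
    exact isCompact_Icc.inter_right (isClosed_singleton.preimage hfc)
  have hSne : S.Nonempty := ⟨b, ⟨hxa.2.le, le_rfl⟩, hb⟩
  obtain ⟨c, ⟨hc, hc0⟩, hcmin⟩ := hSc.exists_isLeast hSne
  have hxc : x < c := lt_of_le_of_ne hc.1 (by rintro rfl; linarith)
  have key : ¬ 0 < f' c := by
    intro h5
    obtain ⟨z, hz, hzc⟩ : ∃ z, f z < 0 ∧ z ∈ Ioo x c :=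
      ((hneg c hc0 h5).and (Ioo_mem_nhdsLT hxc)).exists
    obtain ⟨u, hu, hu0⟩ := intermediate_value_Icc' hzc.1.le hfc.continuousOn
      (show (0 : ℝ) ∈ Icc (f z) (f x) from ⟨hz.le, hx.le⟩)
    have := hcmin (show u ∈ S from ⟨⟨hu.1, hu.2.trans (hzc.2.le.trans hc.2)⟩, hu0⟩)
    linarith [hu.2, hzc.2]
  refine ⟨c, ⟨hxa.1.trans hxc, lt_of_le_of_ne hc.2 ?_⟩, hc0, not_lt.1 key⟩
  rintro rfl
  exact key hb'

theorem Chain.disp_der (H : Chain h T w k) (t : ℝ) :
    HasDerivAt (fun t => Chain.disp h w k t 0) (dT h k t 0 - 1) t := by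
  have h2 := H.fam.der t 0
  have h3 : HasDerivAt (fun t : ℝ => (t, (0 : ℝ))) ((1 : ℝ), (0 : ℝ)) t :=
    (hasDerivAt_id t).prodMk (hasDerivAt_const t 0)
  have h4 := HasFDerivAt.comp_hasDerivAt (f := fun t => (t, (0 : ℝ))) t h2 h3
  refine h4.congr_deriv ?_
  simp

theorem Chain.attr_between (H : Chain h T w k)
    (hn : Fam.Nondeg (Chain.disp h w k) (fun t s => dT h k t s - 1) δ) (hδ : 0 < δ) {a b : ℝ}
    (hab : a < b) (ha : Chain.disp h w k a 0 = 0) (hb : Chain.disp h w k b 0 = 0)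
    (ha' : 1 < dT h k a 0) (hb' : 1 < dT h k b 0) :
    ∃ z ∈ Ioo a b, Chain.disp h w k z 0 = 0 ∧ dT h k z 0 < 1 := by
  obtain ⟨z, hz, hz0, hz1⟩ := exists_zero_between H.disp_der hab ha hb (by linarith) (by linarith)
  have h00 : |(0 : ℝ)| < δ := by rwa [abs_zero]
  refine ⟨z, hz, hz0, lt_of_le_of_ne (by linarith) fun h3 => hn z 0 h00 hz0 ?_⟩
  show dT h k z 0 - 1 = 0
  rw [h3, sub_self]

/-- **Existence of an attracting closed orbit.** -/
theorem Chain.exists_attr (H : Chain h T w k)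
    (hn : Fam.Nondeg (Chain.disp h w k) (fun t s => dT h k t s - 1) δ) {t : ℝ}
    (ht : |Chain.disp h w k t 0| < δ) :
    ∃ t₀, Chain.disp h w k t₀ 0 = 0 ∧ dT h k t₀ 0 < 1 := by
  have hδ : 0 < δ := lt_of_le_of_lt (abs_nonneg _) ht
  have h1 : |sol (Chain.disp h w k) t| < δ := by
    have := H.fam.dist_sol t 0
    rw [sub_zero] at this
    exact lt_of_le_of_lt this ht
  have h00 : |(0 : ℝ)| < δ := by rwa [abs_zero]
  obtain ⟨a, -, ha⟩ := H.fam.surjOn hn h1 h00
  have ha0 : Chain.disp h w k a 0 = 0 := by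
    have := H.fam.sol_zero a
    rwa [ha] at this
  rcases lt_or_gt_of_ne (show dT h k a 0 ≠ 1 from fun h3 => hn a 0 h00 ha0 (by
    show dT h k a 0 - 1 = 0
    rw [h3, sub_self])) with h2 | h2
  · exact ⟨a, ha0, h2⟩
  · have hb0 : Chain.disp h w k (a + T 0) 0 = 0 := by rw [H.fam.per, ha0]
    by_cases hb : 1 < dT h k (a + T 0) 0
    · obtain ⟨z, -, hz⟩ := H.attr_between hn hδ (by linarith [H.pos 0]) ha0 hb0 h2 hb
      exact ⟨z, hz⟩
    · refine ⟨a + T 0, hb0, lt_of_le_of_ne (not_lt.1 hb) fun h3 => hn _ 0 h00 hb0 ?_⟩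
      show dT h k (a + T 0) 0 - 1 = 0
      rw [h3, sub_self]

theorem mult_eq (hy : ∀ s i, y i s = orb h i (y 0 s) s) (s : ℝ) :
    Curve.mult h k y s = dT h k (y 0 s) s := by
  unfold Curve.mult dT
  exact Finset.prod_congr rfl fun i _ => by rw [hy s i]

theorem Chain.attr_curve (H : Chain h T w k)
    (hn : Fam.Nondeg (Chain.disp h w k) (fun t s => dT h k t s - 1) δ) (hδ : 0 < δ) {z : ℝ}
    (hz : Chain.disp h w k z 0 = 0) (hz' : dT h k z 0 < 1) :
    ∃ y v : ℕ → ℝ → ℝ, Curve h T w k δ y v ∧ y 0 0 = z ∧ (∀ s, ∀ i, y i s = orb h i (y 0 s) s) ∧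
      Curve.mult h k y 0 < 1 := by
  have h00 : |(0 : ℝ)| < δ := by rwa [abs_zero]
  obtain ⟨y, v, C, hy0, hy⟩ := H.curve hn h00 hz
  refine ⟨y, v, C, hy0, hy, ?_⟩
  rw [mult_eq hy, hy0]
  exact hz'

theorem ret_of_disp {t : ℝ} : Chain.disp h w k t 0 = 0 ↔ ret h w k t = t := by
  unfold Chain.disp ret
  constructor <;> intro h1 <;> linarith

/-- **Different closed orbits are separated.** -/
theorem Chain.sep (H : Chain h T w k)
    (hn : Fam.Nondeg (Chain.disp h w k) (fun t s => dT h k t s - 1) δ) (hδ : 0 < δ) {a b : ℝ}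
    (ha : Chain.disp h w k a 0 = 0) (hb : Chain.disp h w k b 0 = 0) (hab : a < b) : δ ≤ b - a := by
  have h00 : |(0 : ℝ)| < δ := by rwa [abs_zero]
  by_contra hcon
  push Not at hcon
  have hne : ∀ c, Chain.disp h w k c 0 = 0 → dT h k c 0 ≠ 1 := fun c hc h3 => hn c 0 h00 hc (by
    show dT h k c 0 - 1 = 0
    rw [h3, sub_self])
  rcases lt_or_gt_of_ne (hne a ha) with h1 | h1
  · obtain ⟨y, v, C, hy0, hy, hm⟩ := H.attr_curve hn hδ ha h1
    have := C.ret_lt hy h00 hm (t := b) (by rw [hy0]; exact hab) (by rw [hy0]; linarith)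
    rw [ret_of_disp.1 hb] at this
    exact lt_irrefl _ this
  rcases lt_or_gt_of_ne (hne b hb) with h2 | h2
  · obtain ⟨y, v, C, hy0, hy, hm⟩ := H.attr_curve hn hδ hb h2
    have := C.ret_gt hy h00 hm (t := a) (by rw [hy0]; exact hab) (by rw [hy0]; linarith)
    rw [ret_of_disp.1 ha] at this
    exact lt_irrefl _ this
  obtain ⟨z, hz, hz0, hz1⟩ := H.attr_between hn hδ hab ha hb h1 h2
  obtain ⟨y, v, C, hy0, hy, hm⟩ := H.attr_curve hn hδ hz0 hz1
  have := C.ret_gt hy h00 hm (t := a) (by rw [hy0]; exact hz.1) (by rw [hy0]; linarith [hz.2])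
  rw [ret_of_disp.1 ha] at this
  exact lt_irrefl _ this

/-- **The circles are not short.** -/
theorem Chain.two_le (H : Chain h T w k)
    (hn : Fam.Nondeg (Chain.disp h w k) (fun t s => dT h k t s - 1) δ) (hδ : 0 < δ) {a : ℝ}
    (ha : Chain.disp h w k a 0 = 0) (i : ℕ) : 2 * δ ≤ T i := by
  have h00 : |(0 : ℝ)| < δ := by rwa [abs_zero]
  obtain ⟨z, hz0, hz1⟩ := H.exists_attr hn (t := a) (by rw [ha]; exact h00)
  obtain ⟨y, v, C, hy0, hy, hm⟩ := H.attr_curve hn hδ hz0 hz1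
  by_contra hcon
  push Not at hcon
  obtain ⟨d, hd1, hd2⟩ : ∃ d, max (T i / 2) 0 < d ∧ d < δ := exists_between (max_lt (by linarith) hδ)
  have hd0 : 0 < d := lt_of_le_of_lt (le_max_right _ _) hd1
  have hd3 : T i / 2 < d := lt_of_le_of_lt (le_max_left _ _) hd1
  have e1 : |d| < δ := by rw [abs_of_pos hd0]; exact hd2
  have e2 : |-d| < δ := by rw [abs_neg]; exact e1
  have h1 := C.grow_y h00 hm e2 e1 (by linarith) i
  have h2 := C.variation e2 e1 i
  have := le_abs_self (y i d - y i (-d))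
  linarith

end Pool.Agent.J4.H85.LE
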