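import Pool.Agent.J4.H85.LE.Curve

/-!
# Variation of the continuation, mean exponents and basins
-/

set_option autoImplicit false

open Filter Set Topology MeasureTheory

namespace Pool.Agent.J4.H85.LE

variable {h : ℕ → ℝ → ℝ} {T w : ℕ → ℝ} {k : ℕ} {δ : ℝ} {y v : ℕ → ℝ → ℝ}

namespace Curve

theorem h_neg (H : Chain h T w k) (i : ℕ) (t : ℝ) : h i (t - T i) = h i t - T (i + 1) := by
  have := H.perT i (t - T i)
  rw [sub_add_cancel] at this
  linarith

/-- the continuations at two parameters never differ by a period -/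
theorem noshift (C : Curve h T w k δ y v) {e : ℝ}
    (he : ∀ i t, h i (t + e * T i) = h i t + e * T (i + 1)) {s s' : ℝ} (hs : |s| < δ) (hs' : |s'| < δ)
    (hlt : s < s') (i : ℕ) : y i s' ≠ y i s - e * T i := by
  intro heq
  have key : ∀ m, y (i + m) s ≤ y (i + m) s' + e * T (i + m) ∧
      (1 ≤ m → y (i + m) s < y (i + m) s' + e * T (i + m)) := by
    intro m
    induction m with
    | zero =>
      rw [Nat.add_zero, heq]
      exact ⟨by linarith, by omega⟩
    | succ m ih =>
      have h1 := (h_mono C.chain.incr (i + m)).monotone ih.1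
      rw [he] at h1
      have e1 : i + (m + 1) = i + m + 1 := by omega
      have h2 : y (i + (m + 1)) s < y (i + (m + 1)) s' + e * T (i + (m + 1)) := by
        rw [e1, C.step, C.step]
        linarith
      exact ⟨h2.le, fun _ => h2⟩
  have h1 := (key k).2 C.chain.one
  rw [C.close i s hs, C.close i s' hs', C.chain.perk, heq] at h1
  linarith

/-- the same for the points before the last translation -/
theorem noshift' (C : Curve h T w k δ y v) {e : ℝ}
    (he : ∀ i t, h i (t + e * T i) = h i t + e * T (i + 1)) {s s' : ℝ} (hs : |s| < δ) (hs' : |s'| < δ)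
    (hlt : s < s') (i : ℕ) : y i s' - s' ≠ y i s - s - e * T i := by
  intro heq
  have key : ∀ m, y (i + m) s - s ≤ y (i + m) s' - s' + e * T (i + m) ∧
      (1 ≤ m → y (i + m) s - s < y (i + m) s' - s' + e * T (i + m)) := by
    intro m
    induction m with
    | zero =>
      rw [Nat.add_zero, heq]
      exact ⟨by linarith, by omega⟩
    | succ m ih =>
      have h0 : y (i + m) s < y (i + m) s' + e * T (i + m) := by linarith [ih.1]
      have h1 := h_mono C.chain.incr (i + m) h0
      rw [he] at h1
      have e1 : i + (m + 1) = i + m + 1 := by omega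
      have h2 : y (i + (m + 1)) s - s < y (i + (m + 1)) s' - s' + e * T (i + (m + 1)) := by
        rw [e1, C.step, C.step]
        linarith
      exact ⟨h2.le, fun _ => h2⟩
  have h1 := (key k).2 C.chain.one
  rw [C.close i s hs, C.close i s' hs', C.chain.perk] at h1
  linarith

theorem he1 (H : Chain h T w k) : ∀ i t, h i (t + 1 * T i) = h i t + 1 * T (i + 1) := by
  intro i t
  rw [one_mul, one_mul, H.perT]

theorem he2 (H : Chain h T w k) : ∀ i t, h i (t + (-1) * T i) = h i t + (-1) * T (i + 1) := by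
  intro i t
  have := h_neg H i t
  rw [show t + (-1) * T i = t - T i by ring, this]
  ring

theorem ivt_aux {f : ℝ → ℝ} {a b c : ℝ} (hab : a < b) (hf : ContinuousOn f (Icc a b)) (hc : 0 < c)
    (h1 : c ≤ |f b - f a|) : ∃ x, a < x ∧ x ≤ b ∧ (f x = f a + c ∨ f x = f a - c) := by
  rcases le_abs.1 h1 with h2 | h2
  · obtain ⟨x, hx, hx1⟩ := intermediate_value_Icc hab.le hf
      (show f a + c ∈ Icc (f a) (f b) from ⟨by linarith, by linarith⟩)
    refine ⟨x, lt_of_le_of_ne hx.1 ?_, hx.2, Or.inl hx1⟩
    rintro rfl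
    linarith
  · obtain ⟨x, hx, hx1⟩ := intermediate_value_Icc' hab.le hf
      (show f a - c ∈ Icc (f b) (f a) from ⟨by linarith, by linarith⟩)
    refine ⟨x, lt_of_le_of_ne hx.1 ?_, hx.2, Or.inr hx1⟩
    rintro rfl
    linarith

theorem abs_lt_of_mem {s s' x : ℝ} (hs : |s| < δ) (hs' : |s'| < δ) (h1 : s ≤ x) (h2 : x ≤ s') :
    |x| < δ := by
  rw [abs_lt] at *
  constructor <;> linarith [hs.1, hs.2, hs'.1, hs'.2]

/-- **The continuation moves by less than one turn.** -/
theorem variation_lt (C : Curve h T w k δ y v) {s s' : ℝ} (hs : |s| < δ) (hs' : |s'| < δ)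
    (hlt : s < s') (i : ℕ) : |y i s' - y i s| < T i := by
  by_contra hcon
  push Not at hcon
  have hsub : Icc s s' ⊆ {s | |s| < δ} := fun x hx => abs_lt_of_mem hs hs' hx.1 hx.2
  obtain ⟨x, hx1, hx2, hx3⟩ := ivt_aux hlt ((C.contOn i).mono hsub) (C.chain.pos i) hcon
  have hx : |x| < δ := abs_lt_of_mem hs hs' hx1.le hx2
  rcases hx3 with hx3 | hx3
  · exact C.noshift (he2 C.chain) hs hx hx1 i (by rw [hx3]; ring)
  · exact C.noshift (he1 C.chain) hs hx hx1 i (by rw [hx3]; ring)

theorem variation_lt' (C : Curve h T w k δ y v) {s s' : ℝ} (hs : |s| < δ) (hs' : |s'| < δ)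
    (hlt : s < s') (i : ℕ) : |(y i s' - s') - (y i s - s)| < T i := by
  by_contra hcon
  push Not at hcon
  have hsub : Icc s s' ⊆ {s | |s| < δ} := fun x hx => abs_lt_of_mem hs hs' hx.1 hx.2
  obtain ⟨x, hx1, hx2, hx3⟩ := ivt_aux (f := fun s => y i s - s) hlt
    (((C.contOn i).mono hsub).sub continuousOn_id) (C.chain.pos i) hcon
  have hx : |x| < δ := abs_lt_of_mem hs hs' hx1.le hx2
  rcases hx3 with hx3 | hx3
  · exact C.noshift' (he2 C.chain) hs hx hx1 i (by rw [hx3]; ring)
  · exact C.noshift' (he1 C.chain) hs hx hx1 i (by rw [hx3]; ring)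

theorem variation (C : Curve h T w k δ y v) {s s' : ℝ} (hs : |s| < δ) (hs' : |s'| < δ) (i : ℕ) :
    |y i s' - y i s| < T i := by
  rcases lt_trichotomy s s' with h1 | rfl | h1
  · exact C.variation_lt hs hs' h1 i
  · rw [sub_self, abs_zero]
    exact C.chain.pos i
  · rw [abs_sub_comm]
    exact C.variation_lt hs' hs h1 i

section integral

variable {δ' : ℝ}

theorem sub_dom (h1 : δ' < δ) : Icc (-δ') δ' ⊆ {s | |s| < δ} := fun x hx =>
  lt_of_le_of_lt (abs_le.2 hx) h1

theorem v_int (C : Curve h T w k δ y v) (h0 : 0 < δ') (h1 : δ' < δ) (i : ℕ) :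
    IntervalIntegrable (v i) volume (-δ') δ' := by
  refine ContinuousOn.intervalIntegrable ?_
  rw [uIcc_of_le (by linarith)]
  exact (C.vcont i).mono (sub_dom h1)

theorem v_ftc (C : Curve h T w k δ y v) (h0 : 0 < δ') (h1 : δ' < δ) (i : ℕ) :
    ∫ s in (-δ')..δ', v i s = y i δ' - y i (-δ') := by
  refine intervalIntegral.integral_eq_sub_of_hasDerivAt (fun x hx => ?_) (C.v_int h0 h1 i)
  rw [uIcc_of_le (by linarith)] at hx
  exact C.der i x (sub_dom h1 hx)

theorem expo_int (C : Curve h T w k δ y v) (h0 : 0 < δ') (h1 : δ' < δ) :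
    IntervalIntegrable (fun s => 1 / |expo h k y s|) volume (-δ') δ' := by
  refine ContinuousOn.intervalIntegrable ?_
  rw [uIcc_of_le (by linarith)]
  have hk0 : (0 : ℝ) < k := by exact_mod_cast C.chain.one
  have hc : ContinuousOn (expo h k y) (Icc (-δ') δ') := by
    unfold expo
    exact (ContinuousOn.log (C.mult_contOn.mono (sub_dom h1)) fun x _ => (C.mult_pos x).ne').div_const _
  refine continuousOn_const.div hc.abs fun x hx => ?_
  have hx' : |x| < δ := sub_dom h1 hx
  rw [abs_ne_zero]
  unfold expo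
  refine div_ne_zero ?_ hk0.ne'
  exact Real.log_ne_zero_of_pos_of_ne_one (C.mult_pos x) (C.nondeg x hx')

/-- **The harmonic mean of the exponents along the continuation.** -/
theorem integral_le (C : Curve h T w k δ y v) (h0 : 0 < δ') (h1 : δ' < δ) :
    ∫ s in (-δ')..δ', 1 / |expo h k y s| ≤ (∑ i ∈ Finset.range k, T i) / k := by
  have hk0 : (0 : ℝ) < k := by exact_mod_cast C.chain.one
  have hδ0 : |(0 : ℝ)| < δ := by rw [abs_zero]; linarith
  have hd : |δ'| < δ := by rw [abs_of_pos h0]; exact h1
  have hd' : |-δ'| < δ := by rw [abs_neg]; exact hd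
  rcases lt_or_gt_of_ne (C.nondeg 0 hδ0) with hm | hm
  · have hle : ∀ s ∈ Icc (-δ') δ', 1 / |expo h k y s| ≤ (∑ i ∈ Finset.range k, v i s) / k := by
      intro s hs
      exact C.expo_attr (sub_dom h1 hs) (C.mult_lt hδ0 hm (sub_dom h1 hs))
    have hint : IntervalIntegrable (fun s => (∑ i ∈ Finset.range k, v i s) / k) volume (-δ') δ' := by
      refine ContinuousOn.intervalIntegrable ?_
      rw [uIcc_of_le (by linarith)]
      exact (continuousOn_finsetSum _ fun i _ => (C.vcont i).mono (sub_dom h1)).div_const _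
    refine (intervalIntegral.integral_mono_on (by linarith) (C.expo_int h0 h1) hint hle).trans ?_
    rw [intervalIntegral.integral_div, intervalIntegral.integral_finsetSum fun i _ => C.v_int h0 h1 i]
    refine div_le_div_of_nonneg_right (Finset.sum_le_sum fun i _ => ?_) hk0.le
    rw [C.v_ftc h0 h1]
    have := C.variation hd' hd i
    exact (le_abs_self _).trans this.le
  · have hle : ∀ s ∈ Icc (-δ') δ', 1 / |expo h k y s| ≤ (∑ i ∈ Finset.range k, (1 - v i s)) / k := by
      intro s hs
      exact C.expo_rep (sub_dom h1 hs) (C.mult_gt hδ0 hm (sub_dom h1 hs))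
    have hint : IntervalIntegrable (fun s => (∑ i ∈ Finset.range k, (1 - v i s)) / k) volume
        (-δ') δ' := by
      refine ContinuousOn.intervalIntegrable ?_
      rw [uIcc_of_le (by linarith)]
      exact (continuousOn_finsetSum _ fun i _ =>
        continuousOn_const.sub ((C.vcont i).mono (sub_dom h1))).div_const _
    refine (intervalIntegral.integral_mono_on (by linarith) (C.expo_int h0 h1) hint hle).trans ?_
    rw [intervalIntegral.integral_div, intervalIntegral.integral_finsetSum fun i _ =>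
      intervalIntegrable_const.sub (C.v_int h0 h1 i)]
    refine div_le_div_of_nonneg_right (Finset.sum_le_sum fun i _ => ?_) hk0.le
    rw [intervalIntegral.integral_sub intervalIntegrable_const (C.v_int h0 h1 i), C.v_ftc h0 h1,
      intervalIntegral.integral_const]
    have := C.variation_lt' hd' hd (by linarith) i
    have h3 := (neg_abs_le ((y i δ' - δ') - (y i (-δ') - -δ')))
    simp only [smul_eq_mul, mul_one]
    linarith

end integral

end Curve

end Pool.Agent.J4.H85.LE
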