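import Pool.Agent.J4.H85.LE.Impl

/-!
# Cyclic chains of diffeomorphisms of the line, with a rotation added at each step
-/

set_option autoImplicit false

open Filter Set Topology

namespace Pool.Agent.J4.H85.LE

/-- The orbit `y_{i+1} = h_i(y_i) + s` of `y_0 = t`: `orb h i t s = y_i`. -/
def orb (h : ℕ → ℝ → ℝ) : ℕ → ℝ → ℝ → ℝ
  | 0, t, _ => t
  | i + 1, t, s => h i (orb h i t s) + s

/-- the derivative of `orb` in `t` -/
noncomputable def dT (h : ℕ → ℝ → ℝ) (i : ℕ) (t s : ℝ) : ℝ :=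
  ∏ l ∈ Finset.range i, deriv (h l) (orb h l t s)

/-- the derivative of `orb` in `s` -/
noncomputable def dS (h : ℕ → ℝ → ℝ) : ℕ → ℝ → ℝ → ℝ
  | 0, _, _ => 0
  | i + 1, t, s => deriv (h i) (orb h i t s) * dS h i t s + 1

/-- A chain of increasing `C¹` diffeomorphisms `h i : ℝ/T i → ℝ/T (i+1)`, which closes up after `k`
steps by the translations `w i`. -/
structure Chain (h : ℕ → ℝ → ℝ) (T w : ℕ → ℝ) (k : ℕ) : Prop where
  smooth : ∀ i, ContDiff ℝ 1 (h i)
  incr : ∀ i t, 0 < deriv (h i) t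
  pos : ∀ i, 0 < T i
  perT : ∀ i t, h i (t + T i) = h i t + T (i + 1)
  one : 1 ≤ k
  perk : ∀ i, T (i + k) = T i
  shift : ∀ i t, h (i + k) (t + w i) = h i t + w (i + 1)

section basic

variable {h : ℕ → ℝ → ℝ}

theorem dT_succ (i : ℕ) (t s : ℝ) :
    dT h (i + 1) t s = deriv (h i) (orb h i t s) * dT h i t s := by
  unfold dT
  rw [Finset.prod_range_succ, mul_comm]

theorem orb_cont (hc : ∀ i, ContDiff ℝ 1 (h i)) (i : ℕ) :
    Continuous fun q : ℝ × ℝ => orb h i q.1 q.2 := by
  induction i with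
  | zero => exact continuous_fst
  | succ i ih => exact ((hc i).continuous.comp ih).add continuous_snd

theorem dT_cont (hc : ∀ i, ContDiff ℝ 1 (h i)) (i : ℕ) :
    Continuous fun q : ℝ × ℝ => dT h i q.1 q.2 := by
  unfold dT
  refine continuous_finsetProd _ fun l _ => ?_
  exact ((hc l).continuous_deriv le_rfl).comp (orb_cont hc l)

theorem dS_cont (hc : ∀ i, ContDiff ℝ 1 (h i)) (i : ℕ) :
    Continuous fun q : ℝ × ℝ => dS h i q.1 q.2 := by
  induction i with
  | zero => exact continuous_const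
  | succ i ih =>
    exact ((((hc i).continuous_deriv le_rfl).comp (orb_cont hc i)).mul ih).add continuous_const

theorem orb_der (hc : ∀ i, ContDiff ℝ 1 (h i)) (i : ℕ) (t s : ℝ) :
    HasFDerivAt (fun q : ℝ × ℝ => orb h i q.1 q.2)
      (dT h i t s • ContinuousLinearMap.fst ℝ ℝ ℝ + dS h i t s • ContinuousLinearMap.snd ℝ ℝ ℝ)
      (t, s) := by
  induction i with
  | zero =>
    have h1 : HasFDerivAt (fun q : ℝ × ℝ => q.1) (ContinuousLinearMap.fst ℝ ℝ ℝ) (t, s) :=
      hasFDerivAt_fst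
    have e : dT h 0 t s • ContinuousLinearMap.fst ℝ ℝ ℝ + dS h 0 t s • ContinuousLinearMap.snd ℝ ℝ ℝ
        = ContinuousLinearMap.fst ℝ ℝ ℝ := by
      simp [dT, dS]
    rw [e]
    exact h1
  | succ i ih =>
    have h1 : HasDerivAt (h i) (deriv (h i) (orb h i t s)) (orb h i t s) :=
      ((hc i).differentiable one_ne_zero _).hasDerivAt
    have h2 := (h1.hasFDerivAt.comp (t, s) ih).add
      (hasFDerivAt_snd : HasFDerivAt (fun q : ℝ × ℝ => q.2) (ContinuousLinearMap.snd ℝ ℝ ℝ) (t, s))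
    refine h2.congr_fderiv ?_
    ext
    · simp [dT_succ, dS]
      try ring
    · simp [dT_succ, dS]
      try ring

theorem dT_pos (hi : ∀ i t, 0 < deriv (h i) t) (i : ℕ) (t s : ℝ) : 0 < dT h i t s :=
  Finset.prod_pos fun _ _ => hi _ _

theorem dS_nonneg (hi : ∀ i t, 0 < deriv (h i) t) (i : ℕ) (t s : ℝ) : 0 ≤ dS h i t s := by
  induction i with
  | zero => exact le_rfl
  | succ i ih =>
    show 0 ≤ deriv (h i) (orb h i t s) * dS h i t s + 1
    have := mul_nonneg (hi i (orb h i t s)).le ih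
    linarith

theorem dS_one (hi : ∀ i t, 0 < deriv (h i) t) {i : ℕ} (h1 : 1 ≤ i) (t s : ℝ) :
    1 ≤ dS h i t s := by
  obtain ⟨j, rfl⟩ : ∃ j, i = j + 1 := ⟨i - 1, by omega⟩
  show 1 ≤ deriv (h j) (orb h j t s) * dS h j t s + 1
  have := mul_nonneg (hi j (orb h j t s)).le (dS_nonneg hi j t s)
  linarith

theorem h_mono (hi : ∀ i t, 0 < deriv (h i) t) (i : ℕ) : StrictMono (h i) :=
  strictMono_of_deriv_pos (hi i)

theorem orb_mono (hi : ∀ i t, 0 < deriv (h i) t) (i : ℕ) (s : ℝ) :
    StrictMono fun t => orb h i t s := by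
  induction i with
  | zero => exact strictMono_id
  | succ i ih =>
    intro a b hab
    have := h_mono hi i (ih hab)
    show h i (orb h i a s) + s < h i (orb h i b s) + s
    linarith

theorem orb_grow0 (hi : ∀ i t, 0 < deriv (h i) t) (i : ℕ) (t s s' : ℝ) (hs : s ≤ s') :
    orb h i t s ≤ orb h i t s' := by
  induction i with
  | zero => exact le_rfl
  | succ i ih =>
    have := (h_mono hi i).monotone ih
    show h i (orb h i t s) + s ≤ h i (orb h i t s') + s'
    linarith

theorem orb_grow (hi : ∀ i t, 0 < deriv (h i) t) {i : ℕ} (h1 : 1 ≤ i) (t s s' : ℝ) (hs : s ≤ s') :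
    s' - s ≤ orb h i t s' - orb h i t s := by
  obtain ⟨j, rfl⟩ : ∃ j, i = j + 1 := ⟨i - 1, by omega⟩
  have := (h_mono hi j).monotone (orb_grow0 hi j t s s' hs)
  show s' - s ≤ h j (orb h j t s') + s' - (h j (orb h j t s) + s)
  linarith

end basic

variable {h : ℕ → ℝ → ℝ} {T w : ℕ → ℝ} {k : ℕ}

namespace Chain

theorem orb_per (H : Chain h T w k) (i : ℕ) (t s : ℝ) :
    orb h i (t + T 0) s = orb h i t s + T i := by
  induction i with
  | zero => rfl
  | succ i ih =>
    show h i (orb h i (t + T 0) s) + s = h i (orb h i t s) + s + T (i + 1)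
    rw [ih, H.perT]
    ring

/-- the displacement -/
def disp (h : ℕ → ℝ → ℝ) (w : ℕ → ℝ) (k : ℕ) (t s : ℝ) : ℝ := orb h k t s - t - w 0

theorem fam (H : Chain h T w k) :
    Fam (disp h w k) (fun t s => dT h k t s - 1) (dS h k) (T 0) where
  pos := H.pos 0
  per t s := by
    unfold disp
    have h1 := H.perk 0
    rw [zero_add] at h1
    rw [H.orb_per, h1]
    ring
  grow t s s' hs := by
    have := orb_grow H.incr H.one t s s' hs
    unfold disp
    linarith
  der t s := by
    have h1 := (orb_der H.smooth k t s).sub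
      ((hasFDerivAt_fst : HasFDerivAt (fun q : ℝ × ℝ => q.1) (ContinuousLinearMap.fst ℝ ℝ ℝ) (t, s)).add
        (hasFDerivAt_const (w 0) (t, s)))
    refine (h1.congr_fderiv ?_).congr_of_eventuallyEq (Eventually.of_forall fun q => ?_)
    · ext <;> simp
    · simp only [disp, Pi.sub_apply, Pi.add_apply]
      ring
  contt := (dT_cont H.smooth k).sub continuous_const
  conts := dS_cont H.smooth k
  one t s := dS_one H.incr H.one t s

end Chain

end Pool.Agent.J4.H85.LE
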