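import Pool.Agent.J4.H85.LE.Chain

/-!
# Continuation of the closed orbits of a chain

The continuation `y i s`, `|s| < δ`, of a closed orbit, its speed, and the bounds for its multiplier.
-/

set_option autoImplicit false

open Filter Set Topology MeasureTheory

namespace Pool.Agent.J4.H85.LE

variable {h : ℕ → ℝ → ℝ} {T w : ℕ → ℝ} {k : ℕ} {δ : ℝ}

/-- A continuation, on `|s| < δ`, of a closed orbit of a chain; `v i` is the derivative of `y i`. -/
structure Curve (h : ℕ → ℝ → ℝ) (T w : ℕ → ℝ) (k : ℕ) (δ : ℝ) (y v : ℕ → ℝ → ℝ) : Prop where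
  chain : Chain h T w k
  step : ∀ i s, y (i + 1) s = h i (y i s) + s
  close : ∀ i s, |s| < δ → y (i + k) s = y i s + w i
  der : ∀ i s, |s| < δ → HasDerivAt (y i) (v i s) s
  vstep : ∀ i s, |s| < δ → v (i + 1) s = deriv (h i) (y i s) * v i s + 1
  vclose : ∀ i s, |s| < δ → v (i + k) s = v i s
  nondeg : ∀ s, |s| < δ → ∏ i ∈ Finset.range k, deriv (h i) (y i s) ≠ 1
  vcont : ∀ i, ContinuousOn (v i) {s | |s| < δ}

theorem Chain.curve (H : Chain h T w k)
    (hn : Fam.Nondeg (Chain.disp h w k) (fun t s => dT h k t s - 1) δ) {t₀ s₀ : ℝ} (hs₀ : |s₀| < δ)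
    (h0 : Chain.disp h w k t₀ s₀ = 0) :
    ∃ y v : ℕ → ℝ → ℝ, Curve h T w k δ y v ∧ y 0 s₀ = t₀ ∧ ∀ s, ∀ i, y i s = orb h i (y 0 s) s := by
  obtain ⟨A, hA0, hA, -, -⟩ := H.fam.branch hn hs₀ h0
  refine ⟨fun i s => orb h i (A s) s,
    fun i s => dT h i (A s) s * (-(dS h k (A s) s) / (dT h k (A s) s - 1)) + dS h i (A s) s,
    ?_, hA0, fun s i => rfl⟩
  have hclose : ∀ i s, |s| < δ → orb h (i + k) (A s) s = orb h i (A s) s + w i := by
    intro i s hs
    induction i with
    | zero =>
      have h1 := (hA s hs).1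
      unfold Chain.disp at h1
      rw [zero_add]
      show orb h k (A s) s = A s + w 0
      linarith
    | succ i ih =>
      have e : i + 1 + k = (i + k) + 1 := by omega
      rw [e]
      show h (i + k) (orb h (i + k) (A s) s) + s = h i (orb h i (A s) s) + s + w (i + 1)
      rw [ih, H.shift]
      ring
  have hder : ∀ i s, |s| < δ → HasDerivAt (fun s => orb h i (A s) s)
      (dT h i (A s) s * (-(dS h k (A s) s) / (dT h k (A s) s - 1)) + dS h i (A s) s) s := by
    intro i s hs
    have h1 := orb_der H.smooth i (A s) s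
    have h2 : HasDerivAt (fun s => (A s, s)) (-(dS h k (A s) s) / (dT h k (A s) s - 1), (1 : ℝ)) s :=
      (hA s hs).2.prodMk (hasDerivAt_id s)
    have h3 := HasFDerivAt.comp_hasDerivAt (f := fun s => (A s, s)) s h1 h2
    refine h3.congr_deriv ?_
    simp
  refine ⟨H, fun i s => rfl, hclose, hder, ?_, ?_, ?_, ?_⟩
  · intro i s hs
    simp only [dT_succ, dS]
    ring
  · intro i s hs
    have h1 := hder (i + k) s hs
    have h2 := (hder i s hs).add_const (w i)
    have hev : ∀ᶠ s' in 𝓝 s, |s'| < δ :=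
      (isOpen_lt continuous_abs continuous_const).mem_nhds hs
    have h3 : HasDerivAt (fun s => orb h (i + k) (A s) s) _ s :=
      h2.congr_of_eventuallyEq (by
        filter_upwards [hev] with s' hs'
        exact hclose i s' hs')
    exact h1.unique h3
  · intro s hs heq
    have := hn (A s) s hs (hA s hs).1
    apply this
    show dT h k (A s) s - 1 = 0
    unfold dT
    rw [heq, sub_self]
  · intro i
    have hAc : ContinuousOn (fun s => ((A s, s) : ℝ × ℝ)) {s | |s| < δ} := fun s hs =>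
      ((hA s hs).2.continuousAt.continuousWithinAt).prodMk continuousWithinAt_id
    have hT : ∀ j, ContinuousOn (fun s => dT h j (A s) s) {s | |s| < δ} := fun j =>
      (dT_cont H.smooth j).comp_continuousOn hAc
    have hS : ∀ j, ContinuousOn (fun s => dS h j (A s) s) {s | |s| < δ} := fun j =>
      (dS_cont H.smooth j).comp_continuousOn hAc
    refine ((hT i).mul ((hS k).neg.div ((hT k).sub continuousOn_const) ?_)).add (hS i)
    intro s hs
    exact hn (A s) s hs (hA s hs).1

namespace Curve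

variable {y v : ℕ → ℝ → ℝ}

/-- the multiplier -/
noncomputable def mult (h : ℕ → ℝ → ℝ) (k : ℕ) (y : ℕ → ℝ → ℝ) (s : ℝ) : ℝ :=
  ∏ i ∈ Finset.range k, deriv (h i) (y i s)

theorem contOn (C : Curve h T w k δ y v) (i : ℕ) : ContinuousOn (y i) {s | |s| < δ} :=
  fun s hs => (C.der i s hs).continuousAt.continuousWithinAt

theorem mult_contOn (C : Curve h T w k δ y v) : ContinuousOn (mult h k y) {s | |s| < δ} := by
  unfold mult
  refine continuousOn_finsetProd _ fun i _ => ?_
  exact ((C.chain.smooth i).continuous_deriv le_rfl).comp_continuousOn (C.contOn i)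

theorem mult_pos (C : Curve h T w k δ y v) (s : ℝ) : 0 < mult h k y s :=
  Finset.prod_pos fun i _ => C.chain.incr i _

theorem pre (δ : ℝ) : IsPreconnected {s : ℝ | |s| < δ} := by
  have e : {s : ℝ | |s| < δ} = Ioo (-δ) δ := by
    ext s
    simp [abs_lt]
  rw [e]
  exact isPreconnected_Ioo

theorem mult_lt (C : Curve h T w k δ y v) {s₀ : ℝ} (h0 : |s₀| < δ) (h1 : mult h k y s₀ < 1)
    {s : ℝ} (hs : |s| < δ) : mult h k y s < 1 := by
  by_contra hcon
  push Not at hcon
  have h2 := (pre δ).intermediate_value (f := mult h k y) h0 hs C.mult_contOn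
  obtain ⟨s', hs', he⟩ := h2 (show (1 : ℝ) ∈ Icc _ _ from ⟨h1.le, hcon⟩)
  exact C.nondeg s' hs' he

theorem mult_gt (C : Curve h T w k δ y v) {s₀ : ℝ} (h0 : |s₀| < δ) (h1 : 1 < mult h k y s₀)
    {s : ℝ} (hs : |s| < δ) : 1 < mult h k y s := by
  by_contra hcon
  push Not at hcon
  have h2 := (pre δ).intermediate_value (f := mult h k y) hs h0 C.mult_contOn
  obtain ⟨s', hs', he⟩ := h2 (show (1 : ℝ) ∈ Icc _ _ from ⟨hcon, h1.le⟩)
  exact C.nondeg s' hs' he

/-- explicit form of the speeds after `k` steps -/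
theorem v_expand (C : Curve h T w k δ y v) {s : ℝ} (hs : |s| < δ) (m : ℕ) :
    ∃ q : ℝ, 0 ≤ q ∧ (1 ≤ m → 1 ≤ q) ∧
      v m s = (∏ i ∈ Finset.range m, deriv (h i) (y i s)) * v 0 s + q := by
  induction m with
  | zero => exact ⟨0, le_rfl, by simp, by simp⟩
  | succ m ih =>
    obtain ⟨q, hq, -, e⟩ := ih
    refine ⟨deriv (h m) (y m s) * q + 1, ?_, fun _ => ?_, ?_⟩
    · have := mul_nonneg (C.chain.incr m (y m s)).le hq
      linarith
    · have := mul_nonneg (C.chain.incr m (y m s)).le hq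
      linarith
    · rw [C.vstep m s hs, e, Finset.prod_range_succ]
      ring

theorem v_zero (C : Curve h T w k δ y v) {s : ℝ} (hs : |s| < δ) :
    ∃ q : ℝ, 1 ≤ q ∧ (1 - mult h k y s) * v 0 s = q := by
  obtain ⟨q, -, hq, e⟩ := C.v_expand hs k
  refine ⟨q, hq C.chain.one, ?_⟩
  have h1 := C.vclose 0 s hs
  rw [zero_add] at h1
  rw [h1] at e
  have e2 : v 0 s = mult h k y s * v 0 s + q := e
  linarith

theorem v_pos_step (C : Curve h T w k δ y v) {s : ℝ} (hs : |s| < δ) {i : ℕ} (hi : 0 ≤ v i s) (m : ℕ) :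
    1 ≤ m → 1 ≤ v (i + m) s := by
  induction m with
  | zero => intro h1; omega
  | succ m ih =>
    intro _
    have h2 : 0 ≤ v (i + m) s := by
      rcases Nat.eq_zero_or_pos m with rfl | h3
      · exact hi
      · linarith [ih h3]
    have h4 := C.vstep (i + m) s hs
    rw [show i + (m + 1) = i + m + 1 by omega, h4]
    have := mul_nonneg (C.chain.incr (i + m) (y (i + m) s)).le h2
    linarith

theorem vper (C : Curve h T w k δ y v) {s : ℝ} (hs : |s| < δ) (i m : ℕ) :
    v (i + m * k) s = v i s := by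
  induction m with
  | zero => simp
  | succ m ih =>
    rw [show i + (m + 1) * k = (i + m * k) + k by ring, C.vclose _ s hs, ih]

theorem speed (C : Curve h T w k δ y v) {s : ℝ} (hs : |s| < δ) (hm : mult h k y s < 1) (i : ℕ) :
    1 ≤ v i s := by
  obtain ⟨q, hq, e⟩ := C.v_zero hs
  have h0 : 0 ≤ v 0 s := by
    by_contra hcon
    push Not at hcon
    nlinarith
  have h1 := C.v_pos_step hs h0 (i + k) (by have := C.chain.one; omega)
  rw [zero_add, C.vclose i s hs] at h1
  exact h1

theorem speed_neg (C : Curve h T w k δ y v) {s : ℝ} (hs : |s| < δ) (hm : 1 < mult h k y s) (i : ℕ) :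
    v i s < 0 := by
  obtain ⟨q, hq, e⟩ := C.v_zero hs
  have h0 : v 0 s < 0 := by
    by_contra hcon
    push Not at hcon
    nlinarith
  by_contra hcon
  push Not at hcon
  -- go from `i` to a multiple of `k`
  have hk := C.chain.one
  have h1 := C.v_pos_step hs hcon ((i + 1) * k - i) (by
    have : i + 1 ≤ (i + 1) * k := Nat.le_mul_of_pos_right _ (by omega)
    omega)
  have e2 : i + ((i + 1) * k - i) = 0 + (i + 1) * k := by
    have : i + 1 ≤ (i + 1) * k := Nat.le_mul_of_pos_right _ (by omega)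
    omega
  rw [e2, C.vper hs] at h1
  linarith

/-- the average exponent -/
noncomputable def expo (h : ℕ → ℝ → ℝ) (k : ℕ) (y : ℕ → ℝ → ℝ) (s : ℝ) : ℝ :=
  Real.log (mult h k y s) / k

/-- product over a period, shifted by one -/
theorem prod_shift {f : ℕ → ℝ} (hk : f k = f 0) :
    ∏ i ∈ Finset.range k, f (i + 1) = ∏ i ∈ Finset.range k, f i := by
  rcases Nat.eq_zero_or_pos k with rfl | h1
  · simp
  · obtain ⟨j, rfl⟩ : ∃ j, k = j + 1 := ⟨k - 1, by omega⟩
    rw [Finset.prod_range_succ, Finset.prod_range_succ', hk]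

theorem mult_attr (C : Curve h T w k δ y v) {s : ℝ} (hs : |s| < δ) (hm : mult h k y s < 1) :
    mult h k y s = ∏ i ∈ Finset.range k, (1 - 1 / v i s) := by
  have hv : ∀ i, 1 ≤ v i s := C.speed hs hm
  have hk : v k s = v 0 s := by
    have := C.vclose 0 s hs
    rwa [zero_add] at this
  have h1 : mult h k y s = ∏ i ∈ Finset.range k, ((v (i + 1) s - 1) / v i s) := by
    unfold mult
    refine Finset.prod_congr rfl fun i _ => ?_
    rw [C.vstep i s hs]
    have : v i s ≠ 0 := by linarith [hv i]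
    field_simp
    ring
  rw [h1, Finset.prod_div_distrib, prod_shift (f := fun i => v i s - 1) (by simp [hk]),
    ← Finset.prod_div_distrib]
  refine Finset.prod_congr rfl fun i _ => ?_
  have : v i s ≠ 0 := by linarith [hv i]
  field_simp

theorem mult_rep (C : Curve h T w k δ y v) {s : ℝ} (hs : |s| < δ) (hm : 1 < mult h k y s) :
    mult h k y s = ∏ i ∈ Finset.range k, (1 + 1 / (-v i s)) := by
  have hv : ∀ i, v i s < 0 := C.speed_neg hs hm
  have hk : v k s = v 0 s := by
    have := C.vclose 0 s hs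
    rwa [zero_add] at this
  have h1 : mult h k y s = ∏ i ∈ Finset.range k, ((v (i + 1) s - 1) / v i s) := by
    unfold mult
    refine Finset.prod_congr rfl fun i _ => ?_
    rw [C.vstep i s hs]
    have : v i s ≠ 0 := (hv i).ne
    field_simp
    ring
  rw [h1, Finset.prod_div_distrib, prod_shift (f := fun i => v i s - 1) (by simp [hk]),
    ← Finset.prod_div_distrib]
  refine Finset.prod_congr rfl fun i _ => ?_
  have : v i s ≠ 0 := (hv i).ne
  field_simp
  ring

/-- arithmetic and harmonic means -/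
theorem am_hm {u : ℕ → ℝ} (hk : 1 ≤ k) (hu : ∀ i, 0 < u i) :
    (k : ℝ) / (∑ i ∈ Finset.range k, 1 / u i) ≤ (∑ i ∈ Finset.range k, u i) / k := by
  have hk0 : (0 : ℝ) < k := by exact_mod_cast hk
  have hne : (Finset.range k).Nonempty := ⟨0, Finset.mem_range.2 (by omega)⟩
  have hS : 0 < ∑ i ∈ Finset.range k, 1 / u i :=
    Finset.sum_pos (fun i _ => one_div_pos.2 (hu i)) hne
  rw [div_le_div_iff₀ hS hk0]
  have h1 := Finset.sum_mul_sq_le_sq_mul_sq (Finset.range k) (fun i => Real.sqrt (u i))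
    (fun i => Real.sqrt (1 / u i))
  have e1 : ∑ i ∈ Finset.range k, Real.sqrt (u i) * Real.sqrt (1 / u i) = k := by
    rw [Finset.sum_congr rfl (g := fun _ => (1 : ℝ)) fun i _ => ?_]
    · simp
    · rw [← Real.sqrt_mul (hu i).le, mul_one_div_cancel (hu i).ne', Real.sqrt_one]
  have e2 : ∑ i ∈ Finset.range k, Real.sqrt (u i) ^ 2 = ∑ i ∈ Finset.range k, u i :=
    Finset.sum_congr rfl fun i _ => Real.sq_sqrt (hu i).le
  have e3 : ∑ i ∈ Finset.range k, Real.sqrt (1 / u i) ^ 2 = ∑ i ∈ Finset.range k, 1 / u i :=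
    Finset.sum_congr rfl fun i _ => Real.sq_sqrt (one_div_pos.2 (hu i)).le
  rw [e1, e2, e3] at h1
  nlinarith

theorem expo_neg (C : Curve h T w k δ y v) {s : ℝ} (hm : mult h k y s < 1) : expo h k y s < 0 := by
  have hk0 : (0 : ℝ) < k := by exact_mod_cast C.chain.one
  exact div_neg_of_neg_of_pos (Real.log_neg (C.mult_pos s) hm) hk0

theorem expo_pos (C : Curve h T w k δ y v) {s : ℝ} (hm : 1 < mult h k y s) : 0 < expo h k y s := by
  have hk0 : (0 : ℝ) < k := by exact_mod_cast C.chain.one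
  exact div_pos (Real.log_pos hm) hk0

theorem expo_attr (C : Curve h T w k δ y v) {s : ℝ} (hs : |s| < δ) (hm : mult h k y s < 1) :
    1 / |expo h k y s| ≤ (∑ i ∈ Finset.range k, v i s) / k := by
  have hk0 : (0 : ℝ) < k := by exact_mod_cast C.chain.one
  have hv : ∀ i, 1 ≤ v i s := C.speed hs hm
  have hne : (Finset.range k).Nonempty := ⟨0, Finset.mem_range.2 (by have := C.chain.one; omega)⟩
  have hS : 0 < ∑ i ∈ Finset.range k, 1 / v i s :=
    Finset.sum_pos (fun i _ => one_div_pos.2 (by linarith [hv i])) hne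
  have hfac : ∀ i ∈ Finset.range k, (1 - 1 / v i s) ≠ 0 := by
    have h1 := C.mult_pos s
    rw [C.mult_attr hs hm] at h1
    exact Finset.prod_ne_zero_iff.1 h1.ne'
  have h1 : Real.log (mult h k y s) ≤ -(∑ i ∈ Finset.range k, 1 / v i s) := by
    rw [C.mult_attr hs hm, Real.log_prod (fun i hi => hfac i hi), ← Finset.sum_neg_distrib]
    refine Finset.sum_le_sum fun i hi => ?_
    have h2 : 0 < 1 - 1 / v i s := by
      refine lt_of_le_of_ne ?_ (Ne.symm (hfac i hi))
      have : 1 / v i s ≤ 1 := by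
        rw [div_le_one (by linarith [hv i])]
        exact hv i
      linarith
    have := Real.log_le_sub_one_of_pos h2
    linarith
  have h2 : (∑ i ∈ Finset.range k, 1 / v i s) / k ≤ |expo h k y s| := by
    rw [abs_of_neg (C.expo_neg hm), expo, ← neg_div]
    exact div_le_div_of_nonneg_right (by linarith) hk0.le
  calc 1 / |expo h k y s| ≤ 1 / ((∑ i ∈ Finset.range k, 1 / v i s) / k) :=
        one_div_le_one_div_of_le (div_pos hS hk0) h2
    _ = k / (∑ i ∈ Finset.range k, 1 / v i s) := by rw [one_div_div]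
    _ ≤ _ := am_hm C.chain.one fun i => by linarith [hv i]

theorem expo_rep (C : Curve h T w k δ y v) {s : ℝ} (hs : |s| < δ) (hm : 1 < mult h k y s) :
    1 / |expo h k y s| ≤ (∑ i ∈ Finset.range k, (1 - v i s)) / k := by
  have hk0 : (0 : ℝ) < k := by exact_mod_cast C.chain.one
  have hv : ∀ i, v i s < 0 := C.speed_neg hs hm
  have hne : (Finset.range k).Nonempty := ⟨0, Finset.mem_range.2 (by have := C.chain.one; omega)⟩
  have hS : 0 < ∑ i ∈ Finset.range k, 1 / (1 - v i s) :=
    Finset.sum_pos (fun i _ => one_div_pos.2 (by linarith [hv i])) hne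
  have h1 : (∑ i ∈ Finset.range k, 1 / (1 - v i s)) ≤ Real.log (mult h k y s) := by
    have hpos : ∀ i ∈ Finset.range k, (1 + 1 / (-v i s)) ≠ 0 := fun i _ => by
      have := one_div_pos.2 (neg_pos.2 (hv i))
      linarith
    rw [C.mult_rep hs hm, Real.log_prod hpos]
    refine Finset.sum_le_sum fun i hi => ?_
    have h3 : 0 < -v i s := neg_pos.2 (hv i)
    have h2 : (0 : ℝ) < (1 + 1 / (-v i s))⁻¹ := inv_pos.2 (by have := one_div_pos.2 h3; linarith)
    have h4 := Real.log_le_sub_one_of_pos h2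
    rw [Real.log_inv] at h4
    have e : (1 + 1 / (-v i s))⁻¹ = 1 - 1 / (1 - v i s) := by
      have : (1 - v i s) ≠ 0 := by linarith
      have h5 : v i s ≠ 0 := (hv i).ne
      have h6 : (-v i s) ≠ 0 := h3.ne'
      have h7 : 1 + 1 / (-v i s) = (1 - v i s) / (-v i s) := by
        field_simp
        ring
      rw [h7, inv_div]
      field_simp
      ring
    rw [e] at h4
    linarith
  have h2 : (∑ i ∈ Finset.range k, 1 / (1 - v i s)) / k ≤ |expo h k y s| := by
    rw [abs_of_pos (C.expo_pos hm), expo]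
    exact div_le_div_of_nonneg_right h1 hk0.le
  calc 1 / |expo h k y s| ≤ 1 / ((∑ i ∈ Finset.range k, 1 / (1 - v i s)) / k) :=
        one_div_le_one_div_of_le (div_pos hS hk0) h2
    _ = k / (∑ i ∈ Finset.range k, 1 / (1 - v i s)) := by rw [one_div_div]
    _ ≤ _ := am_hm C.chain.one fun i => by linarith [hv i]

end Curve

end Pool.Agent.J4.H85.LE
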