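import Pool.Agent.J4.H85.LE.Leaf
import Pool.Agent.N102.UF.Main
import Pool.Agent.Y504.CO.Gen
import Pool.Agent.TH80.CLX.Fam

/-!
# Hyperbolicity along the leaves
-/

set_option autoImplicit false
set_option linter.unusedSectionVars false

open scoped Manifold ContDiff Topology
open Filter Set

universe u

namespace Pool.Agent.J4.H85.LE

open Pool.Agent.H718R2.G Pool.Agent.W564.SC Pool.Agent.TH80.OMS Pool.Agent.TH80.CLX
open Pool.Agent.TH290.CL

theorem flow_act {n : ℕ} {N : Type u} [TopologicalSpace N] [ChartedSpace (V n) N]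
    {ψ : ℝ → N → N} (hψ : IsFlow n N ψ) : Act ψ := ⟨hψ.zero, hψ.add⟩

/-- an eigenvector gives a root of the characteristic polynomial -/
theorem root_of_right {E : Type*} [NormedAddCommGroup E] [NormedSpace ℝ E] [FiniteDimensional ℝ E]
    (D : E →L[ℝ] E) (v : E) (hne : v ≠ 0) (κ : ℝ) (h : D v = κ • v) :
    ((LinearMap.charpoly (D : E →ₗ[ℝ] E)).map (algebraMap ℝ ℂ)).IsRoot (κ : ℂ) := by
  have h1 : Module.End.HasEigenvalue (D : E →ₗ[ℝ] E) κ := by
    refine Module.End.hasEigenvalue_of_hasEigenvector (x := v) ⟨?_, hne⟩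
    rw [Module.End.mem_eigenspace_iff]
    exact h
  have h2 := (Module.End.hasEigenvalue_iff_isRoot_charpoly (D : E →ₗ[ℝ] E) κ).1 h1
  exact h2.map

variable {n : ℕ} {N : Type u} [TopologicalSpace N] [T2Space N] [CompactSpace N]
  [ChartedSpace (V n) N] [IsManifold (𝓡 n) ∞ N]

/-- the flow line in a chart -/
theorem line_diff {ψ : ℝ → N → N} (hψ : IsFlow n N ψ) (p : N) :
    DifferentiableAt ℝ (fun t => chartAt (V n) p (ψ t p)) 0 := by
  have hγN : ContMDiff 𝓘(ℝ, ℝ) (𝓡 n) ∞ (fun t => ψ t p) := by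
    have h1 : ContMDiff 𝓘(ℝ, ℝ) (𝓘(ℝ, ℝ).prod (𝓡 n)) ∞ (fun t : ℝ => (t, p)) :=
      contMDiff_id.prodMk contMDiff_const
    exact ContMDiff.comp (g := fun q : ℝ × N => ψ q.1 q.2) (f := fun t : ℝ => (t, p))
      hψ.smooth h1
  have h1 : ContMDiffAt (𝓡 n) (𝓡 n) ∞ (chartAt (V n) p) (ψ 0 p) := by
    rw [hψ.zero]
    exact contMDiffAt_of_mem_maximalAtlas (IsManifold.chart_mem_maximalAtlas p) (mem_chart_source _ _)
  have h2 : ContMDiffAt 𝓘(ℝ, ℝ) (𝓡 n) ∞ (fun t => chartAt (V n) p (ψ t p)) 0 :=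
    ContMDiffAt.comp (g := chartAt (V n) p) (f := fun t => ψ t p) 0 h1 hγN.contMDiffAt
  have h3 : ContDiffAt ℝ ∞ (fun t => chartAt (V n) p (ψ t p)) 0 := contMDiffAt_iff_contDiffAt.1 h2
  exact h3.differentiableAt (by norm_num)

/-- **The flow line of a moving point has nonzero velocity.** -/
theorem line_ne {ψ : ℝ → N → N} (hψ : IsFlow n N ψ) (p : N) {u : ℝ} (hu : ψ u p ≠ p)
    {γ' : V n} (hγ : HasDerivAt (fun t => chartAt (V n) p (ψ t p)) γ' 0) : γ' ≠ 0 := by
  rintro rfl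
  apply hu
  by_contra hne
  -- a smooth function which separates the two points
  obtain ⟨b, hb0, hb1, -⟩ := exists_contMDiffMap_zero_one_of_isClosed (𝓡 n)
    (isClosed_singleton (x := ψ u p)) (isClosed_singleton (x := p))
    (disjoint_singleton.2 hne)
  have hb : ContMDiff (𝓡 n) 𝓘(ℝ, ℝ) ∞ b := b.contMDiff
  have hcont : Continuous fun q : ℝ × N => ψ q.1 q.2 := hψ.smooth.continuous
  have hd : ∀ t : ℝ, HasDerivAt (fun t => b (ψ t p)) 0 t := by
    intro t
    have h1 := (loc_smooth hψ hb p t).differentiableAt (by norm_num)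
    have h2 : HasDerivAt (fun s : ℝ => ((t, chartAt (V n) p (ψ s p)) : ℝ × V n))
        ((0 : ℝ), (0 : V n)) 0 := (hasDerivAt_const (0 : ℝ) t).prodMk hγ
    have e0 : ((t, chartAt (V n) p (ψ 0 p)) : ℝ × V n) = (t, chartAt (V n) p p) := by rw [hψ.zero]
    have h3 : HasFDerivAt (fun q : ℝ × V n => b (ψ q.1 ((chartAt (V n) p).symm q.2)))
        (fderiv ℝ (fun q : ℝ × V n => b (ψ q.1 ((chartAt (V n) p).symm q.2)))
          (t, chartAt (V n) p p)) (t, chartAt (V n) p (ψ 0 p)) := by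
      rw [e0]
      exact h1.hasFDerivAt
    have h4 := HasFDerivAt.comp_hasDerivAt
      (f := fun s : ℝ => ((t, chartAt (V n) p (ψ s p)) : ℝ × V n)) (0 : ℝ) h3 h2
    have e1 : ((0 : ℝ), (0 : V n)) = 0 := rfl
    rw [e1, map_zero] at h4
    -- rewrite the function near `0`
    have hsrc : ∀ᶠ s in 𝓝 (0 : ℝ), ψ s p ∈ (chartAt (V n) p).source := by
      have h5 : Continuous fun s : ℝ => ψ s p := hcont.comp (continuous_id.prodMk continuous_const)
      refine h5.continuousAt ((chartAt (V n) p).open_source.mem_nhds ?_)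
      rw [hψ.zero]
      exact mem_chart_source _ _
    have h6 : HasDerivAt (fun s => b (ψ (t + s) p)) 0 0 := by
      refine h4.congr_of_eventuallyEq ?_
      filter_upwards [hsrc] with s hs
      show b (ψ (t + s) p) = b (ψ t ((chartAt (V n) p).symm (chartAt (V n) p (ψ s p))))
      rw [(chartAt (V n) p).left_inv hs, hψ.add]
    have h7 : HasDerivAt (fun s => b (ψ (t + s) p)) 0 (t - t) := by rwa [sub_self]
    have h8 := HasDerivAt.comp_sub_const t t h7
    refine h8.congr_of_eventuallyEq (Eventually.of_forall fun s => ?_)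
    show b (ψ s p) = b (ψ (t + (s - t)) p)
    rw [add_sub_cancel]
  have hconst := is_const_of_deriv_eq_zero (f := fun t => b (ψ t p))
    (fun t => (hd t).differentiableAt) (fun t => (hd t).deriv) u 0
  simp only [hψ.zero] at hconst
  have h9 : b (ψ u p) = 0 := hb0 (mem_singleton _)
  have h10 : b p = 1 := hb1 (mem_singleton _)
  rw [h9, h10] at hconst
  exact zero_ne_one hconst

/-- **The multiplier along a leaf is an eigenvalue.** -/
theorem leaf_eig {ψ : ℝ → N → N} (hψ : IsFlow n N ψ) {G : N → N} {p : N}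
    {u : ℝ} (hu : ψ u p ≠ p) (hhyp : Pool.Agent.Y504.CO.IsHyperbolicPer n G p) {k : ℕ} (hk : 1 ≤ k)
    (hp : G^[k] p = p) {ρ : ℝ → ℝ} {κ : ℝ} (hρ0 : ρ 0 = 0) (hρ : HasDerivAt ρ κ 0)
    (hret : ∀ t, G^[k] (ψ t p) = ψ (ρ t) p) : |κ| ≠ 1 := by
  set φ := chartAt (V n) p with hφd
  have hφ : φ ∈ IsManifold.maximalAtlas (𝓡 n) ∞ N := IsManifold.chart_mem_maximalAtlas p
  have hps : p ∈ φ.source := mem_chart_source _ _
  obtain ⟨D, hD, hroot⟩ := hhyp.2 k hk hp φ hφ hps
  have hγ := (line_diff hψ p).hasDerivAt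
  set γ' := deriv (fun t => chartAt (V n) p (ψ t p)) 0 with hγ'
  have hne : γ' ≠ 0 := line_ne hψ p hu hγ
  have hcont : Continuous fun q : ℝ × N => ψ q.1 q.2 := hψ.smooth.continuous
  have hsrc : ∀ᶠ s in 𝓝 (0 : ℝ), ψ s p ∈ φ.source := by
    have h5 : Continuous fun s : ℝ => ψ s p := hcont.comp (continuous_id.prodMk continuous_const)
    refine h5.continuousAt (φ.open_source.mem_nhds ?_)
    rw [hψ.zero]
    exact mem_chart_source _ _
  -- derivative of `φ ∘ G^k ∘ φ⁻¹ ∘ γ`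
  have h1 : HasDerivAt (fun t => φ (G^[k] (φ.symm (φ (ψ t p))))) (D γ') 0 := by
    have h2 : HasFDerivAt (fun v => φ (G^[k] (φ.symm v))) D (φ (ψ 0 p)) := by
      rw [hψ.zero]
      exact hD
    exact HasFDerivAt.comp_hasDerivAt (f := fun t => φ (ψ t p)) (0 : ℝ) h2 hγ
  have h3 : HasDerivAt (fun t => φ (ψ (ρ t) p)) (κ • γ') 0 := by
    have h4 : HasDerivAt (fun t => φ (ψ t p)) γ' (ρ 0) := by
      rw [hρ0]
      exact hγ
    exact HasDerivAt.scomp (g₁ := fun t => φ (ψ t p)) (0 : ℝ) h4 hρ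
  have h5 : HasDerivAt (fun t => φ (ψ (ρ t) p)) (D γ') 0 := by
    refine h1.congr_of_eventuallyEq ?_
    filter_upwards [hsrc] with t ht
    rw [φ.left_inv ht, hret]
  have h6 : D γ' = κ • γ' := h5.unique h3
  have := hroot (κ : ℂ) (root_of_right D γ' hne κ h6)
  rwa [Complex.norm_real, Real.norm_eq_abs] at this

/-- Near an `Ω`-stable diffeomorphism all periodic points are hyperbolic. -/
theorem family_hyp {r : ℕ∞} (hr : 1 ≤ r) {F : DiffM n N r} (hF : OmegaStable n N r F)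
    {ψ : ℝ → N → N} (hψ : IsFlow n N ψ) : ∃ δ : ℝ, 0 < δ ∧ ∀ s, |s| < δ → ∀ p,
      p ∈ Per (fun y => ψ s (F y)) →
        Pool.Agent.Y504.CO.IsHyperbolicPer n (fun y => ψ s (F y)) p := by
  classical
  by_cases hN : Nonempty N
  · obtain ⟨z⟩ := hN
    obtain ⟨H, hfam, hH, hH0⟩ := Pool.Agent.N102.UF.flow_fam hψ r F
    have hF' := hF
    obtain ⟨U, hU, hFU, hconj⟩ := hF
    obtain ⟨κ, hκ, hmem⟩ := fam_mem r hr H hfam z U hU (by rw [hH0]; exact hFU)
    refine ⟨κ, hκ, fun s hs p hp => ?_⟩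
    have hHs : (H s : N → N) = fun y => ψ s (F y) := funext fun y => hH s y
    have hst : OmegaStable n N r (H s) := by
      refine ⟨U, hU, hmem s (by rwa [Real.norm_eq_abs]), fun g hg => ?_⟩
      have h1 := hconj (H s) (hmem s (by rwa [Real.norm_eq_abs]))
      have h2 := hconj g hg
      obtain ⟨a, ha⟩ := h1
      obtain ⟨b, hb⟩ := h2
      have hsym := conj_symm F.continuous a ha
      refine ⟨a.symm.trans b, fun x y hxy => ?_⟩
      exact hb _ _ (hsym x y hxy)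
    have h3 := Pool.Agent.Y504.CO.Gen.stable_hyp hr hst p (by rw [hHs]; exact hp)
    rw [hHs] at h3
    exact h3
  · exact ⟨1, one_pos, fun s _ p => absurd ⟨p⟩ hN⟩

end Pool.Agent.J4.H85.LE
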