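import Mathlib

/-!
# Level curves of functions which increase in the second variable

`P t s` is `T`-periodic in `t` and increases at least with unit speed in `s`; `sol P t` is the zero of
`P t`. If `P = 0` has no critical points (in the direction of `t`) for `|s| < δ`, then the branches of
the zero set are graphs over the whole interval `|s| < δ`.
-/

set_option autoImplicit false

open Filter Set Topology

namespace Pool.Agent.J4.H85.LE

/-- The assumptions on `P`. -/
structure Fam (P pt ps : ℝ → ℝ → ℝ) (T : ℝ) : Prop where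
  pos : 0 < T
  per : ∀ t s, P (t + T) s = P t s
  grow : ∀ t s s', s ≤ s' → s' - s ≤ P t s' - P t s
  der : ∀ t s, HasFDerivAt (fun q : ℝ × ℝ => P q.1 q.2)
    (pt t s • ContinuousLinearMap.fst ℝ ℝ ℝ + ps t s • ContinuousLinearMap.snd ℝ ℝ ℝ) (t, s)
  contt : Continuous fun q : ℝ × ℝ => pt q.1 q.2
  conts : Continuous fun q : ℝ × ℝ => ps q.1 q.2
  one : ∀ t s, 1 ≤ ps t s

variable {P pt ps : ℝ → ℝ → ℝ} {T : ℝ}

namespace Fam

theorem cont (h : Fam P pt ps T) : Continuous fun q : ℝ × ℝ => P q.1 q.2 :=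
  continuous_iff_continuousAt.2 fun q => (h.der q.1 q.2).continuousAt

theorem strict (h : Fam P pt ps T) (t : ℝ) : StrictMono (P t) := by
  intro s s' hs
  have := h.grow t s s' hs.le
  linarith

theorem exists_sol (h : Fam P pt ps T) (t : ℝ) : ∃ s, P t s = 0 := by
  have hc : Continuous (P t) := h.cont.comp (continuous_const.prodMk continuous_id)
  have h1 := h.grow t 0 |P t 0| (abs_nonneg _)
  have h2 := h.grow t (-|P t 0|) 0 (by simp)
  have h3 : 0 ≤ P t |P t 0| := by
    have := neg_abs_le (P t 0)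
    linarith
  have h4 : P t (-|P t 0|) ≤ 0 := by
    have := le_abs_self (P t 0)
    linarith
  have := intermediate_value_Icc (a := -|P t 0|) (b := |P t 0|)
    (by have := abs_nonneg (P t 0); linarith) hc.continuousOn
  obtain ⟨s, -, hs⟩ := this ⟨h4, h3⟩
  exact ⟨s, hs⟩

end Fam

open Classical in
/-- The zero of `P t`. -/
noncomputable def sol (P : ℝ → ℝ → ℝ) (t : ℝ) : ℝ := if h : ∃ s, P t s = 0 then h.choose else 0

namespace Fam

theorem sol_zero (h : Fam P pt ps T) (t : ℝ) : P t (sol P t) = 0 := by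
  have h1 := h.exists_sol t
  unfold sol
  rw [dif_pos h1]
  exact h1.choose_spec

theorem sol_eq (h : Fam P pt ps T) {t s : ℝ} (hs : P t s = 0) : sol P t = s :=
  (h.strict t).injective (by rw [h.sol_zero, hs])

theorem sol_per (h : Fam P pt ps T) (t : ℝ) : sol P (t + T) = sol P t :=
  h.sol_eq (by rw [h.per, h.sol_zero])

theorem dist_sol (h : Fam P pt ps T) (t s : ℝ) : |sol P t - s| ≤ |P t s| := by
  rcases le_total s (sol P t) with h1 | h1
  · have h2 := h.grow t s _ h1
    rw [h.sol_zero] at h2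
    rw [abs_of_nonneg (by linarith)]
    have := neg_abs_le (P t s)
    linarith
  · have h2 := h.grow t _ s h1
    rw [h.sol_zero] at h2
    rw [abs_of_nonpos (by linarith)]
    have := le_abs_self (P t s)
    linarith

theorem sol_cont (h : Fam P pt ps T) : Continuous (sol P) := by
  rw [continuous_iff_continuousAt]
  intro a
  rw [ContinuousAt, tendsto_iff_dist_tendsto_zero]
  have h1 : Tendsto (fun t => |P t (sol P a)|) (𝓝 a) (𝓝 0) := by
    have h2 : Continuous fun t => |P t (sol P a)| :=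
      (h.cont.comp (continuous_id.prodMk continuous_const)).abs
    have h3 := h2.tendsto a
    rw [h.sol_zero, abs_zero] at h3
    exact h3
  refine squeeze_zero (fun _ => dist_nonneg) (fun t => ?_) h1
  rw [Real.dist_eq]
  exact h.dist_sol t _

theorem sol_deriv (h : Fam P pt ps T) (a : ℝ) :
    HasDerivAt (sol P) (-(pt a (sol P a)) / ps a (sol P a)) a := by
  set b := sol P a with hb
  have hps : 0 < ps a b := lt_of_lt_of_le one_pos (h.one a b)
  have hd := h.der a b
  rw [hasFDerivAt_iff_isLittleO_nhds_zero] at hd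
  rw [hasDerivAt_iff_isLittleO_nhds_zero]
  -- increments
  set Δ : ℝ → ℝ := fun x => sol P (a + x) - b with hΔ
  have hΔ0 : Tendsto Δ (𝓝 0) (𝓝 0) := by
    have h1 : Continuous Δ := by
      rw [hΔ]
      exact (h.sol_cont.comp (continuous_const.add continuous_id)).sub continuous_const
    have h2 := h1.tendsto 0
    simpa [hΔ, hb] using h2
  have hk : Tendsto (fun x : ℝ => ((x, Δ x) : ℝ × ℝ)) (𝓝 0) (𝓝 0) := by
    have h1 : Tendsto (fun x : ℝ => ((x, Δ x) : ℝ × ℝ)) (𝓝 0) (𝓝 0 ×ˢ 𝓝 0) :=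
      tendsto_id.prodMk hΔ0
    rwa [← nhds_prod_eq] at h1
  have hd2 := hd.comp_tendsto hk
  have hd3 : (fun x : ℝ => pt a b * x + ps a b * Δ x) =o[𝓝 0] fun x => ((x, Δ x) : ℝ × ℝ) := by
    have h4 := hd2.neg_left
    refine h4.congr_left fun x => ?_
    have e : P (a + x) (b + Δ x) = 0 := by
      have : b + Δ x = sol P (a + x) := by simp [hΔ]
      rw [this]
      exact h.sol_zero _
    simp only [Function.comp, Prod.fst_add, Prod.snd_add, e]
    rw [h.sol_zero a]
    simp [smul_eq_mul]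
  -- `Δ = O(x)`
  have hO : Δ =O[𝓝 0] fun x : ℝ => x := by
    have h5 := hd3.def (c := ps a b / 4) (by positivity)
    rw [Asymptotics.isBigO_iff]
    refine ⟨(|pt a b| + ps a b / 4) * (2 / ps a b) , ?_⟩
    filter_upwards [h5] with x hx
    rw [Real.norm_eq_abs, Prod.norm_def] at hx
    have hx2 : |pt a b * x + ps a b * Δ x| ≤ ps a b / 4 * (|x| + |Δ x|) := by
      refine hx.trans (mul_le_mul_of_nonneg_left ?_ (by positivity))
      simp only [Real.norm_eq_abs]
      exact max_le (by linarith [abs_nonneg (Δ x)]) (by linarith [abs_nonneg x])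
    have h6 : ps a b * |Δ x| ≤ |pt a b * x + ps a b * Δ x| + |pt a b| * |x| := by
      have e1 : ps a b * |Δ x| = |ps a b * Δ x| := by rw [abs_mul, abs_of_pos hps]
      rw [e1, ← abs_mul]
      have e2 : ps a b * Δ x = (pt a b * x + ps a b * Δ x) - pt a b * x := by ring
      calc |ps a b * Δ x| = |(pt a b * x + ps a b * Δ x) - pt a b * x| := by rw [← e2]
        _ ≤ _ := abs_sub _ _
    rw [Real.norm_eq_abs, Real.norm_eq_abs]
    have h7 : ps a b * |Δ x| ≤ 2 * ((|pt a b| + ps a b / 4) * |x|) := by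
      nlinarith [abs_nonneg x, abs_nonneg (Δ x), abs_nonneg (pt a b)]
    rw [mul_assoc, div_mul_eq_mul_div, mul_div_assoc', le_div_iff₀ hps]
    nlinarith
  have hO2 : (fun x : ℝ => ((x, Δ x) : ℝ × ℝ)) =O[𝓝 0] fun x : ℝ => x :=
    (Asymptotics.isBigO_refl _ _).prod_left hO
  have h8 := (hd3.trans_isBigO hO2).const_mul_left (1 / ps a b)
  refine h8.congr_left fun x => ?_
  simp only [smul_eq_mul, hΔ]
  field_simp
  ring

/-- No critical points of the zero set with `|s| < δ`. -/
def Nondeg (P pt : ℝ → ℝ → ℝ) (δ : ℝ) : Prop := ∀ t s, |s| < δ → P t s = 0 → pt t s ≠ 0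

theorem sol_deriv_ne (h : Fam P pt ps T) {δ : ℝ} (hn : Nondeg P pt δ) {t : ℝ}
    (ht : |sol P t| < δ) : -(pt t (sol P t)) / ps t (sol P t) ≠ 0 := by
  have h1 := hn t _ ht (h.sol_zero t)
  have h2 : 0 < ps t (sol P t) := lt_of_lt_of_le one_pos (h.one _ _)
  exact div_ne_zero (neg_ne_zero.2 h1) h2.ne'

/-- the component of `{|sol P| < δ}` -/
def comp (P : ℝ → ℝ → ℝ) (δ t₀ : ℝ) : Set ℝ := connectedComponentIn {t | |sol P t| < δ} t₀

theorem isOpen_dom (h : Fam P pt ps T) (δ : ℝ) : IsOpen {t | |sol P t| < δ} :=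
  isOpen_lt h.sol_cont.abs continuous_const

theorem isOpen_comp (h : Fam P pt ps T) (δ t₀ : ℝ) : IsOpen (comp P δ t₀) :=
  (h.isOpen_dom δ).connectedComponentIn

theorem comp_sub (δ t₀ : ℝ) {t : ℝ} (ht : t ∈ comp P δ t₀) : |sol P t| < δ := by
  have h1 : comp P δ t₀ ⊆ {t | |sol P t| < δ} := connectedComponentIn_subset _ _
  exact h1 ht

theorem mem_comp {δ t₀ : ℝ} (h0 : |sol P t₀| < δ) : t₀ ∈ comp P δ t₀ :=
  mem_connectedComponentIn h0

theorem comp_ord (δ t₀ : ℝ) : OrdConnected (comp P δ t₀) :=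
  isPreconnected_connectedComponentIn.ordConnected

theorem injOn (h : Fam P pt ps T) {δ : ℝ} (hn : Nondeg P pt δ) (t₀ : ℝ) :
    InjOn (sol P) (comp P δ t₀) := by
  have key : ∀ a ∈ comp P δ t₀, ∀ b ∈ comp P δ t₀, a < b → sol P a ≠ sol P b := by
    intro a ha b hb hab heq
    obtain ⟨c, hc, hc0⟩ := exists_deriv_eq_zero hab h.sol_cont.continuousOn heq
    have hc1 : c ∈ comp P δ t₀ := (comp_ord δ t₀).out ha hb ⟨hc.1.le, hc.2.le⟩
    rw [(h.sol_deriv c).deriv] at hc0
    exact h.sol_deriv_ne hn (comp_sub δ t₀ hc1) hc0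
  intro a ha b hb hab
  rcases lt_trichotomy a b with h1 | h1 | h1
  · exact absurd hab (key a ha b hb h1)
  · exact h1
  · exact absurd hab.symm (key b hb a ha h1)

/-- the image of a component is everything -/
theorem surjOn (h : Fam P pt ps T) {δ : ℝ} (hn : Nondeg P pt δ) {t₀ : ℝ}
    (h0 : |sol P t₀| < δ) {s : ℝ} (hs : |s| < δ) : ∃ t ∈ comp P δ t₀, sol P t = s := by
  set I := comp P δ t₀ with hI
  have ht0 : t₀ ∈ I := mem_comp h0
  have hbd : ∀ t ∈ I, t < t₀ + T ∧ t₀ - T < t := by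
    intro t ht
    constructor
    · by_contra hcon
      push Not at hcon
      have h1 : t₀ + T ∈ I := (comp_ord δ t₀).out ht0 ht ⟨by linarith [h.pos], hcon⟩
      have h2 := h.injOn hn t₀ h1 ht0 (h.sol_per t₀)
      linarith [h.pos]
    · by_contra hcon
      push Not at hcon
      have h1 : t₀ - T ∈ I := (comp_ord δ t₀).out ht ht0 ⟨hcon, by linarith [h.pos]⟩
      have h3 : sol P t₀ = sol P (t₀ - T) := by
        have := h.sol_per (t₀ - T)
        rwa [sub_add_cancel] at this
      have h2 := h.injOn hn t₀ ht0 h1 h3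
      linarith [h.pos]
  set a := sInf I
  set b := sSup I
  have hbb : BddBelow I := ⟨t₀ - T, fun t ht => (hbd t ht).2.le⟩
  have hba : BddAbove I := ⟨t₀ + T, fun t ht => (hbd t ht).1.le⟩
  have hne : I.Nonempty := ⟨t₀, ht0⟩
  have hpre : IsPreconnected I := isPreconnected_connectedComponentIn
  -- the end points do not belong to the open domain
  have hend : ∀ c ∈ closure I, c ∉ I → ¬ |sol P c| < δ := by
    intro c hc hcI hlt
    have h1 : IsPreconnected (insert c I) :=
      hpre.subset_closure (subset_insert _ _) (insert_subset hc subset_closure)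
    have h2 : insert c I ⊆ {t | |sol P t| < δ} := by
      rintro t (rfl | ht)
      · exact hlt
      · exact comp_sub δ t₀ ht
    have h3 := h1.subset_connectedComponentIn (mem_insert_of_mem _ ht0) h2
    exact hcI (h3 (mem_insert _ _))
  have haI : a ∉ I := by
    intro ha
    obtain ⟨ε, hε, hb⟩ := Metric.isOpen_iff.1 (h.isOpen_comp δ t₀) a ha
    have h1 : a - ε / 2 ∈ I := hb (by rw [Metric.mem_ball, Real.dist_eq]; rw [abs_lt]; constructor <;> linarith)
    have h2 := csInf_le hbb h1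
    have : a ≤ a - ε / 2 := h2
    linarith
  have hbI : b ∉ I := by
    intro hb'
    obtain ⟨ε, hε, hb⟩ := Metric.isOpen_iff.1 (h.isOpen_comp δ t₀) b hb'
    have h1 : b + ε / 2 ∈ I := hb (by rw [Metric.mem_ball, Real.dist_eq]; rw [abs_lt]; constructor <;> linarith)
    have h2 := le_csSup hba h1
    have : b + ε / 2 ≤ b := h2
    linarith
  have ha1 := hend a (csInf_mem_closure hne hbb) haI
  have hb1 := hend b (csSup_mem_closure hne hba) hbI
  -- the two ends have different values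
  have hab : sol P a ≠ sol P b := by
    intro heq
    have hlt : a < b := by
      have h1 : a ≤ t₀ := csInf_le hbb ht0
      have h2 : t₀ ≤ b := le_csSup hba ht0
      rcases h1.lt_or_eq with h3 | h3
      · exact lt_of_lt_of_le h3 h2
      · exact absurd (h3 ▸ ht0) haI
    obtain ⟨c, hc, hc0⟩ := exists_deriv_eq_zero hlt h.sol_cont.continuousOn heq
    have hcI : c ∈ I := by
      obtain ⟨u, hu, hu1⟩ := exists_lt_of_csInf_lt hne hc.1
      obtain ⟨v, hv, hv1⟩ := exists_lt_of_lt_csSup hne hc.2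
      exact (comp_ord δ t₀).out hu hv ⟨hu1.le, hv1.le⟩
    rw [(h.sol_deriv c).deriv] at hc0
    exact h.sol_deriv_ne hn (comp_sub δ t₀ hcI) hc0
  -- values at the ends are `≥ δ` or `≤ -δ`, but limits of values in between
  have hle : ∀ c ∈ closure I, |sol P c| ≤ δ := by
    intro c hc
    have h1 : IsClosed {t | |sol P t| ≤ δ} := isClosed_le h.sol_cont.abs continuous_const
    have h2 : closure I ⊆ {t | |sol P t| ≤ δ} :=
      h1.closure_subset_iff.2 fun t ht => (comp_sub δ t₀ ht).le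
    exact h2 hc
  have ea : |sol P a| = δ := le_antisymm (hle a (csInf_mem_closure hne hbb)) (not_lt.1 ha1)
  have eb : |sol P b| = δ := le_antisymm (hle b (csSup_mem_closure hne hba)) (not_lt.1 hb1)
  have hle' : a ≤ b := (csInf_le hbb ht0).trans (le_csSup hba ht0)
  have hs' := abs_lt.1 hs
  -- intermediate value theorem on `[a, b]`
  have hmem : ∃ t ∈ Icc a b, sol P t = s := by
    rcases (abs_eq (by linarith [abs_nonneg (sol P a)] : (0 : ℝ) ≤ δ)).1 ea with e1 | e1 <;>
    rcases (abs_eq (by linarith [abs_nonneg (sol P a)] : (0 : ℝ) ≤ δ)).1 eb with e2 | e2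
    · exact absurd (e1.trans e2.symm) hab
    · have := intermediate_value_Icc' hle' h.sol_cont.continuousOn (f := sol P)
      rw [e1, e2] at this
      obtain ⟨t, ht, h1⟩ := this (show s ∈ Icc (-δ) δ from ⟨hs'.1.le, hs'.2.le⟩)
      exact ⟨t, ht, h1⟩
    · have := intermediate_value_Icc hle' h.sol_cont.continuousOn (f := sol P)
      rw [e1, e2] at this
      obtain ⟨t, ht, h1⟩ := this (show s ∈ Icc (-δ) δ from ⟨hs'.1.le, hs'.2.le⟩)
      exact ⟨t, ht, h1⟩
    · exact absurd (e1.trans e2.symm) hab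
  obtain ⟨t, ht, hts⟩ := hmem
  have hta : t ≠ a := by
    rintro rfl
    rw [← hts] at hs
    exact ha1 hs
  have htb : t ≠ b := by
    rintro rfl
    rw [← hts] at hs
    exact hb1 hs
  obtain ⟨u, hu, hu1⟩ := exists_lt_of_csInf_lt hne (lt_of_le_of_ne ht.1 (Ne.symm hta))
  obtain ⟨v, hv, hv1⟩ := exists_lt_of_lt_csSup hne (lt_of_le_of_ne ht.2 htb)
  exact ⟨t, (comp_ord δ t₀).out hu hv ⟨hu1.le, hv1.le⟩, hts⟩

/-- **Branches of the zero set.** -/
theorem branch (h : Fam P pt ps T) {δ : ℝ} (hn : Nondeg P pt δ) {t₀ s₀ : ℝ}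
    (hs₀ : |s₀| < δ) (h0 : P t₀ s₀ = 0) :
    ∃ A : ℝ → ℝ, A s₀ = t₀ ∧ (∀ s, |s| < δ → P (A s) s = 0 ∧
      HasDerivAt A (-(ps (A s) s) / pt (A s) s) s) ∧
      (∀ s, |s| < δ → A s ∈ comp P δ t₀) ∧
      (∀ t ∈ comp P δ t₀, ∀ s, P t s = 0 → A s = t) := by
  have e0 : sol P t₀ = s₀ := h.sol_eq h0
  have hd0 : |sol P t₀| < δ := by rw [e0]; exact hs₀
  choose! A hA hAs using fun (s : ℝ) (hs : |s| < δ) => h.surjOn hn hd0 hs
  have huniq : ∀ t ∈ comp P δ t₀, ∀ s, P t s = 0 → A s = t := by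
    intro t ht s hts
    have e1 : sol P t = s := h.sol_eq hts
    have hs : |s| < δ := by rw [← e1]; exact comp_sub δ t₀ ht
    exact h.injOn hn t₀ (hA s hs) ht (by rw [hAs s hs, e1])
  refine ⟨A, huniq t₀ (mem_comp hd0) s₀ h0, fun s hs => ?_, hA, huniq⟩
  have hz : P (A s) s = 0 := by
    have h1 := h.sol_zero (A s)
    rwa [hAs s hs] at h1
  refine ⟨hz, ?_⟩
  -- continuity of the inverse function
  have hopen : comp P δ t₀ ∈ 𝓝 (A s) := (h.isOpen_comp δ t₀).mem_nhds (hA s hs)
  have hcont : ContinuousAt A s := by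
    -- `sol P` is injective and continuous near `A s`, so strictly monotone
    have hIcc : ∀ W ∈ 𝓝 (A s), ∃ a b, a < A s ∧ A s < b ∧ Icc a b ⊆ W ∧ Icc a b ⊆ comp P δ t₀ := by
      intro W hW
      obtain ⟨ε, hε, hb⟩ := Metric.mem_nhds_iff.1 (inter_mem hW hopen)
      refine ⟨A s - ε / 2, A s + ε / 2, by linarith, by linarith, fun t ht => ?_, fun t ht => ?_⟩
      · exact (hb (by rw [Metric.mem_ball, Real.dist_eq, abs_lt]; constructor <;> linarith [ht.1, ht.2])).1
      · exact (hb (by rw [Metric.mem_ball, Real.dist_eq, abs_lt]; constructor <;> linarith [ht.1, ht.2])).2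
    intro W hW
    obtain ⟨a, b, ha, hb, hab, habI⟩ := hIcc W hW
    have hab' : a < b := ha.trans hb
    have hinj : InjOn (sol P) (Icc a b) := (h.injOn hn t₀).mono habI
    have hcon : ContinuousOn (sol P) (Icc a b) := h.sol_cont.continuousOn
    have hval : ∀ t ∈ Icc a b, A (sol P t) = t := fun t ht =>
      huniq t (habI ht) _ (h.sol_zero t)
    show A ⁻¹' W ∈ 𝓝 s
    rcases hcon.strictMonoOn_of_injOn_Icc' hab'.le hinj with hm | hm
    · have h1 : sol P a < s := by
        have := hm (left_mem_Icc.2 hab'.le) ⟨ha.le, hb.le⟩ ha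
        rwa [hAs s hs] at this
      have h2 : s < sol P b := by
        have := hm ⟨ha.le, hb.le⟩ (right_mem_Icc.2 hab'.le) hb
        rwa [hAs s hs] at this
      filter_upwards [Icc_mem_nhds h1 h2] with s' hs'
      obtain ⟨t, ht, hts⟩ := intermediate_value_Icc hab'.le hcon hs'
      show A s' ∈ W
      rw [← hts, hval t ht]
      exact hab ht
    · have h1 : sol P b < s := by
        have := hm ⟨ha.le, hb.le⟩ (right_mem_Icc.2 hab'.le) hb
        rwa [hAs s hs] at this
      have h2 : s < sol P a := by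
        have := hm (left_mem_Icc.2 hab'.le) ⟨ha.le, hb.le⟩ ha
        rwa [hAs s hs] at this
      filter_upwards [Icc_mem_nhds h1 h2] with s' hs'
      obtain ⟨t, ht, hts⟩ := intermediate_value_Icc' hab'.le hcon hs'
      show A s' ∈ W
      rw [← hts, hval t ht]
      exact hab ht
  have hsd := h.sol_deriv (A s)
  rw [hAs s hs] at hsd
  have hne : -(pt (A s) s) / ps (A s) s ≠ 0 := by
    have := h.sol_deriv_ne hn (t := A s) (by rw [hAs s hs]; exact hs)
    rwa [hAs s hs] at this
  have hev : ∀ᶠ s' in 𝓝 s, sol P (A s') = s' := by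
    have h1 : ∀ᶠ s' in 𝓝 s, |s'| < δ :=
      (isOpen_lt continuous_abs continuous_const).mem_nhds hs
    filter_upwards [h1] with s' hs'
    exact hAs s' hs'
  have h3 := HasDerivAt.of_local_left_inverse hcont (by simpa using hsd) hne hev
  have hpt : pt (A s) s ≠ 0 := hn _ _ hs hz
  have hps : ps (A s) s ≠ 0 := (lt_of_lt_of_le one_pos (h.one _ _)).ne'
  have e : -(ps (A s) s) / pt (A s) s = (-(pt (A s) s) / ps (A s) s)⁻¹ := by
    rw [inv_div, div_neg, neg_div]
  rw [e]
  exact h3

end Fam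

end Pool.Agent.J4.H85.LE
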