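import Pool.Agent.J4.H85.LE.Basin

/-!
# Closed orbits of a flow, permuted by a map
-/

set_option autoImplicit false

open Filter Set Topology

universe u

namespace Pool.Agent.J4.H85.LE

/-- A sequence of closed orbits of the flow `ψ` mapped to each other by `F`, preserving the direction
of the flow: the `ψ`-orbit of `F^i c` is closed with minimal period `T i > 0`, and
`F (ψ_t (F^i c)) = ψ_{h i t} (F^{i+1} c)` with functions `h i` of class `C¹`, `(h i)' > 0`,
`h i 0 = 0`. -/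
structure Leaves {N : Type u} (ψ : ℝ → N → N) (F : N → N) (c : N) (h : ℕ → ℝ → ℝ) (T : ℕ → ℝ) :
    Prop where
  /-- the period of the orbit of `F^i c` -/
  pos : ∀ i, 0 < T i
  closed : ∀ i, ψ (T i) (F^[i] c) = F^[i] c
  minimal : ∀ i t, 0 < t → ψ t (F^[i] c) = F^[i] c → T i ≤ t
  /-- `F` maps the orbit of `F^i c` to the orbit of `F^{i+1} c` -/
  maps : ∀ i t, F (ψ t (F^[i] c)) = ψ (h i t) (F^[i + 1] c)
  smooth : ∀ i, ContDiff ℝ 1 (h i)
  /-- the direction is preserved -/
  incr : ∀ i t, 0 < deriv (h i) t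
  zero : ∀ i, h i 0 = 0

/-- An action of `ℝ`. -/
structure Act {N : Type u} (ψ : ℝ → N → N) : Prop where
  zero : ∀ y, ψ 0 y = y
  add : ∀ s t y, ψ (s + t) y = ψ s (ψ t y)

variable {N : Type u} {ψ : ℝ → N → N}

/-- The periods of `x`. -/
def stab (A : Act ψ) (x : N) : AddSubgroup ℝ where
  carrier := {t | ψ t x = x}
  add_mem' := by
    intro a b ha hb
    show ψ (a + b) x = x
    rw [A.add, show ψ b x = x from hb, show ψ a x = x from ha]
  zero_mem' := A.zero x
  neg_mem' := by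
    intro a ha
    show ψ (-a) x = x
    have h1 : ψ (-a) (ψ a x) = x := by rw [← A.add, neg_add_cancel, A.zero]
    rwa [show ψ a x = x from ha] at h1

theorem mem_stab (A : Act ψ) {x : N} {t : ℝ} : t ∈ stab A x ↔ ψ t x = x := Iff.rfl

theorem Act.eq_iff (A : Act ψ) {x : N} {s t : ℝ} : ψ s x = ψ t x ↔ s - t ∈ stab A x := by
  rw [mem_stab]
  constructor
  · intro h1
    rw [sub_eq_neg_add, A.add, h1, ← A.add, neg_add_cancel, A.zero]
  · intro h1
    have h2 : ψ t (ψ (s - t) x) = ψ s x := by rw [← A.add, add_sub_cancel]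
    rw [← h2, h1]

theorem Act.comm (A : Act ψ) (s t : ℝ) (x : N) : ψ s (ψ t x) = ψ t (ψ s x) := by
  rw [← A.add, ← A.add, add_comm]

theorem int_mul (A : Act ψ) {x : N} {T : ℝ} (hT : 0 < T) (h1 : ψ T x = x)
    (h2 : ∀ t, 0 < t → ψ t x = x → T ≤ t) {u : ℝ} (hu : u ∈ stab A x) : ∃ m : ℤ, u = m * T := by
  have h3 : u - ⌊u / T⌋ * T ∈ stab A x := by
    refine (stab A x).sub_mem hu ?_
    have := (stab A x).zsmul_mem (show T ∈ stab A x from h1) ⌊u / T⌋
    rwa [zsmul_eq_mul] at this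
  refine ⟨⌊u / T⌋, ?_⟩
  have h4 : (⌊u / T⌋ : ℝ) ≤ u / T := Int.floor_le _
  have h5 : u / T < ⌊u / T⌋ + 1 := Int.lt_floor_add_one _
  rw [le_div_iff₀ hT] at h4
  rw [div_lt_iff₀ hT] at h5
  by_contra hne
  have h6 := h2 (u - ⌊u / T⌋ * T) (lt_of_le_of_ne (by linarith) fun h => hne (by linarith)) h3
  linarith

theorem const_of_int {f : ℝ → ℝ} (hf : Continuous f) {T : ℝ} (hT : 0 < T)
    (h : ∀ t, ∃ m : ℤ, f t = m * T) (a b : ℝ) : f a = f b := by
  by_contra hne
  have key : ∀ a b, ¬ f a < f b := by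
    intro a b hab
    obtain ⟨m, hm⟩ := h a
    obtain ⟨n, hn⟩ := h b
    have hmn : m < n := by
      have : (m : ℝ) * T < n * T := by rw [← hm, ← hn]; exact hab
      exact_mod_cast lt_of_mul_lt_mul_right this hT.le
    have hmn' : (m : ℝ) + 1 ≤ n := by exact_mod_cast hmn
    have h1 := intermediate_value_uIcc (a := a) (b := b) hf.continuousOn
    have h2 : (m + 1 / 2 : ℝ) * T ∈ uIcc (f a) (f b) := by
      rw [uIcc_of_le hab.le, hm, hn]
      constructor <;> nlinarith
    obtain ⟨c, -, hc⟩ := h1 h2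
    obtain ⟨l, hl⟩ := h c
    have h3 : (l : ℝ) * T = (m + 1 / 2 : ℝ) * T := by rw [← hl]; exact hc
    have h4 := mul_right_cancel₀ hT.ne' h3
    have h5 : (2 * l : ℤ) = 2 * m + 1 := by
      have : (2 * l : ℝ) = 2 * m + 1 := by linarith
      exact_mod_cast this
    omega
  rcases lt_or_gt_of_ne hne with h1 | h1
  · exact key a b h1
  · exact key b a h1

variable {F : N → N} {c : N} {h : ℕ → ℝ → ℝ} {T : ℕ → ℝ}

namespace Leaves

theorem mono (L : Leaves ψ F c h T) (i : ℕ) : StrictMono (h i) := h_mono L.incr i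

theorem cont (L : Leaves ψ F c h T) (i : ℕ) : Continuous (h i) := (L.smooth i).continuous

theorem perT (A : Act ψ) (hinj : Function.Injective F) (L : Leaves ψ F c h T) (i : ℕ) (t : ℝ) :
    h i (t + T i) = h i t + T (i + 1) := by
  have hmem : ∀ t, h i (t + T i) - h i t ∈ stab A (F^[i + 1] c) := by
    intro t
    rw [← A.eq_iff, ← L.maps, ← L.maps, A.add, L.closed]
  have hint : ∀ t, ∃ m : ℤ, h i (t + T i) - h i t = m * T (i + 1) := fun t =>
    int_mul A (L.pos _) (L.closed _) (L.minimal _) (hmem t)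
  have hc : Continuous fun t => h i (t + T i) - h i t :=
    ((L.cont i).comp (continuous_id.add continuous_const)).sub (L.cont i)
  have hconst := const_of_int hc (L.pos (i + 1)) hint
  have h1 := hconst t 0
  simp only [zero_add, L.zero, sub_zero] at h1
  -- the value at `0`
  obtain ⟨m, hm⟩ := hint 0
  rw [zero_add, L.zero, sub_zero] at hm
  have hT := L.pos (i + 1)
  have hpos : 0 < h i (T i) := by
    have := L.mono i (L.pos i)
    rwa [L.zero] at this
  have hm1 : 1 ≤ m := by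
    by_contra hcon
    push Not at hcon
    have h2 : (m : ℝ) ≤ 0 := by exact_mod_cast (by omega : m ≤ 0)
    nlinarith
  have hm2 : m ≤ 1 := by
    by_contra hcon
    push Not at hcon
    have h2 : (2 : ℝ) ≤ m := by exact_mod_cast (by omega : (2 : ℤ) ≤ m)
    have h3 := intermediate_value_Icc (L.pos i).le (L.cont i).continuousOn
    obtain ⟨v, hv, hv1⟩ := h3 (show T (i + 1) ∈ Icc (h i 0) (h i (T i)) by
      rw [L.zero, hm]
      constructor <;> nlinarith)
    have h4 : F (ψ v (F^[i] c)) = F (F^[i] c) := by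
      rw [L.maps, hv1, L.closed, Function.iterate_succ_apply']
    have h5 := hinj h4
    have hv0 : 0 < v := by
      refine lt_of_le_of_ne hv.1 ?_
      rintro rfl
      rw [L.zero] at hv1
      linarith
    have h6 := L.minimal i v hv0 h5
    have h7 : v = T i := le_antisymm hv.2 h6
    rw [h7, hm] at hv1
    nlinarith
  have hm3 : m = 1 := le_antisymm hm2 hm1
  rw [hm3, Int.cast_one, one_mul] at hm
  linarith

/-- the closing translations -/
def W (h : ℕ → ℝ → ℝ) (k : ℕ) (w₀ : ℝ) : ℕ → ℝ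
  | 0 => w₀
  | i + 1 => h (i + k) (W h k w₀ i)

theorem W_spec (L : Leaves ψ F c h T) {k : ℕ} {w₀ : ℝ} (hw : ψ w₀ (F^[k] c) = c) (i : ℕ) :
    ψ (W h k w₀ i) (F^[i + k] c) = F^[i] c := by
  induction i with
  | zero =>
    rw [zero_add]
    exact hw
  | succ i ih =>
    rw [Function.iterate_succ_apply', ← ih, L.maps]
    show _ = ψ (h (i + k) (W h k w₀ i)) _
    congr 2
    omega

theorem chain (A : Act ψ) (hinj : Function.Injective F) (L : Leaves ψ F c h T) {k : ℕ}
    (hk : 1 ≤ k) {w₀ : ℝ} (hw : ψ w₀ (F^[k] c) = c) : Chain h T (W h k w₀) k := by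
  have hW := L.W_spec hw
  have hstab : ∀ i t, ψ t (F^[i] c) = F^[i] c ↔ ψ t (F^[i + k] c) = F^[i + k] c := by
    intro i t
    constructor
    · intro h1
      have h2 : ψ (-(W h k w₀ i)) (F^[i] c) = F^[i + k] c := by
        rw [← hW i, ← A.add, neg_add_cancel, A.zero]
      rw [← h2, A.comm, h1]
    · intro h1
      rw [← hW i, A.comm, h1]
  refine
    { smooth := L.smooth
      incr := L.incr
      pos := L.pos
      perT := L.perT A hinj
      one := hk
      perk := fun i => ?_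
      shift := fun i => ?_ }
  · refine le_antisymm (L.minimal _ _ (L.pos i) ((hstab i _).1 (L.closed i)))
      (L.minimal _ _ (L.pos _) ((hstab i _).2 (L.closed _)))
  · have hmem : ∀ t, h (i + k) (t + W h k w₀ i) - (h i t + W h k w₀ (i + 1)) ∈
        stab A (F^[i + 1 + k] c) := by
      intro t
      rw [← A.eq_iff, A.add, hW (i + 1), ← L.maps]
      have e : i + 1 + k = (i + k) + 1 := by omega
      rw [e, ← L.maps, A.add, hW i]
    have hint : ∀ t, ∃ m : ℤ, h (i + k) (t + W h k w₀ i) - (h i t + W h k w₀ (i + 1)) =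
        m * T (i + 1 + k) := fun t =>
      int_mul A (L.pos _) (L.closed _) (L.minimal _) (hmem t)
    have hc : Continuous fun t => h (i + k) (t + W h k w₀ i) - (h i t + W h k w₀ (i + 1)) :=
      ((L.cont _).comp (continuous_id.add continuous_const)).sub ((L.cont i).add continuous_const)
    intro t
    have h1 := const_of_int hc (L.pos _) hint t 0
    have e0 : W h k w₀ (i + 1) = h (i + k) (W h k w₀ i) := rfl
    simp only [zero_add, L.zero, e0] at h1
    rw [e0]
    linarith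

/-- iterates of `ψ s ∘ F` -/
theorem iter (A : Act ψ) (L : Leaves ψ F c h T) (s t : ℝ) (m : ℕ) :
    (fun y => ψ s (F y))^[m] (ψ t c) = ψ (orb h m t s) (F^[m] c) := by
  induction m with
  | zero => rfl
  | succ m ih =>
    rw [Function.iterate_succ_apply', ih, L.maps, ← A.add, add_comm]
    rfl

theorem iter0 (A : Act ψ) (L : Leaves ψ F c h T) (t : ℝ) (m : ℕ) :
    F^[m] (ψ t c) = ψ (orb h m t 0) (F^[m] c) := by
  have h1 := L.iter A 0 t m
  have e : (fun y => ψ 0 (F y)) = F := by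
    funext y
    exact A.zero _
  rwa [e] at h1

/-- the return map -/
theorem ret_spec (A : Act ψ) (L : Leaves ψ F c h T) {k : ℕ} {w₀ : ℝ} (hw : ψ w₀ (F^[k] c) = c)
    (s t : ℝ) : (fun y => ψ s (F y))^[k] (ψ t c) = ψ (orb h k t s - w₀) c := by
  rw [L.iter A]
  have h1 : ψ (orb h k t s - w₀) (ψ w₀ (F^[k] c)) = ψ (orb h k t s) (F^[k] c) := by
    rw [← A.add, sub_add_cancel]
  rw [← h1, hw]

theorem iter_ret (A : Act ψ) (L : Leaves ψ F c h T) {k : ℕ} {w₀ : ℝ} (hw : ψ w₀ (F^[k] c) = c)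
    (t : ℝ) (m : ℕ) : F^[m * k] (ψ t c) = ψ ((ret h (W h k w₀) k)^[m] t) c := by
  induction m with
  | zero => simp
  | succ m ih =>
    have e : (m + 1) * k = k + m * k := by ring
    rw [e, Function.iterate_add_apply, ih, Function.iterate_succ_apply']
    have h1 := L.ret_spec A hw 0 ((ret h (W h k w₀) k)^[m] t)
    have e2 : (fun y => ψ 0 (F y)) = F := by
      funext y
      exact A.zero _
    rw [e2] at h1
    exact h1

/-- the closing translation of a periodic point -/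
theorem close_of_per (A : Act ψ) (L : Leaves ψ F c h T) {k : ℕ} {t : ℝ}
    (ht : F^[k] (ψ t c) = ψ t c) : ψ (orb h k t 0 - t) (F^[k] c) = c := by
  rw [sub_eq_neg_add, A.add, ← L.iter0 A, ht, ← A.add, neg_add_cancel, A.zero]

theorem disp_of_per {k : ℕ} {t : ℝ} :
    Chain.disp h (W h k (orb h k t 0 - t)) k t 0 = 0 := by
  unfold Chain.disp
  show orb h k t 0 - t - (orb h k t 0 - t) = 0
  ring

/-- Powers of the return. -/
theorem return_mul (A : Act ψ) (L : Leaves ψ F c h T) {n : ℕ} {b : ℝ} (hb : F^[n] c = ψ b c)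
    (j : ℕ) : ∃ β, F^[n * j] c = ψ β c := by
  induction j with
  | zero => exact ⟨0, by simp [A.zero]⟩
  | succ j ih =>
    obtain ⟨β, hβ⟩ := ih
    have e : n * (j + 1) = n + n * j := by ring
    rw [e, Function.iterate_add_apply, hβ, L.iter0 A, hb, ← A.add]
    exact ⟨_, rfl⟩

/-- reduction to one turn -/
theorem reduce (A : Act ψ) (L : Leaves ψ F c h T) (β : ℝ) : ∃ γ ∈ Icc 0 (T 0), ψ β c = ψ γ c := by
  have hT := L.pos 0
  have h4 : (⌊β / T 0⌋ : ℝ) ≤ β / T 0 := Int.floor_le _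
  have h5 : β / T 0 < ⌊β / T 0⌋ + 1 := Int.lt_floor_add_one _
  rw [le_div_iff₀ hT] at h4
  rw [div_lt_iff₀ hT] at h5
  refine ⟨β - ⌊β / T 0⌋ * T 0, ⟨by linarith, by linarith⟩, ?_⟩
  rw [A.eq_iff, sub_sub_cancel]
  have := (stab A c).zsmul_mem (show T 0 ∈ stab A c from L.closed 0) ⌊β / T 0⌋
  rwa [zsmul_eq_mul] at this

/-- **Close returns.** -/
theorem close_return (A : Act ψ) (L : Leaves ψ F c h T) {n : ℕ} (hn : 1 ≤ n) {b : ℝ}
    (hb : F^[n] c = ψ b c) {ε : ℝ} (hε : 0 < ε) :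
    ∃ k w₀ t, 1 ≤ k ∧ ψ w₀ (F^[k] c) = c ∧ |Chain.disp h (W h k w₀) k t 0| < ε := by
  have h1 : ∀ j, ∃ γ ∈ Icc 0 (T 0), F^[n * j] c = ψ γ c := by
    intro j
    obtain ⟨β, hβ⟩ := L.return_mul A hb j
    obtain ⟨γ, hγ, h2⟩ := L.reduce A β
    exact ⟨γ, hγ, by rw [hβ, h2]⟩
  choose γ hγ hγ2 using h1
  obtain ⟨a, -, φ, hφ, hlim⟩ := isCompact_Icc.tendsto_subseq hγ
  have hcau := hlim.cauchySeq
  rw [Metric.cauchySeq_iff'] at hcau
  obtain ⟨M, hM⟩ := hcau ε hε
  have h3 := hM (M + 1) (by omega)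
  rw [Real.dist_eq] at h3
  have hlt : φ M < φ (M + 1) := hφ (by omega)
  set i := φ M
  set j := φ (M + 1)
  have hji : n * j = n * (j - i) + n * i := by
    rw [← mul_add]
    congr 1
    omega
  obtain ⟨β, hβ⟩ := L.return_mul A hb (j - i)
  -- `F^K (ψ (γ i) c) = ψ (γ j) c`
  have h4 : F^[n * (j - i)] (ψ (γ i) c) = ψ (γ j) c := by
    rw [← hγ2 i, ← Function.iterate_add_apply, ← hji, hγ2 j]
  rw [L.iter0 A, hβ, ← A.add, A.eq_iff] at h4
  obtain ⟨p, hp⟩ := int_mul A (L.pos 0) (L.closed 0) (L.minimal 0) h4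
  have hpT : ψ (p * T 0) c = c := by
    have := (stab A c).zsmul_mem (show T 0 ∈ stab A c from L.closed 0) p
    rwa [zsmul_eq_mul] at this
  refine ⟨n * (j - i), p * T 0 - β, γ i, Nat.one_le_iff_ne_zero.2 (Nat.mul_ne_zero (by omega)
    (by omega)), ?_, ?_⟩
  · rw [hβ, ← A.add, sub_add_cancel, hpT]
  · unfold Chain.disp
    show |orb h (n * (j - i)) (γ i) 0 - γ i - (p * T 0 - β)| < ε
    have e : orb h (n * (j - i)) (γ i) 0 - γ i - (p * T 0 - β) = γ j - γ i := by
      linarith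
    rw [e]
    exact h3

end Leaves

end Pool.Agent.J4.H85.LE
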